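import Mathlib

/-! Cleaning and walks along sums of initial segments. -/

set_option autoImplicit false

namespace Pool.Agent.MP_7119ff_nt

open Finset

/-- Removing small fibres. -/
theorem clean {Ω V : Type} [DecidableEq V] (l m : ℕ) (f : ℕ → Ω → V) (n : ℕ) :
    ∀ (U : Finset (ℕ × V)) (W : Finset Ω), U.card = n → (∀ ω ∈ W, ∀ k < l, (k, f k ω) ∈ U) →
      ∃ W' ⊆ W, W.card ≤ W'.card + n * m ∧
        ∀ ω ∈ W', ∀ k < l, m < (W'.filter (fun ω' => f k ω' = f k ω)).card := by
  induction n with
  | zero =>
    intro U W hU hW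
    refine ⟨W, subset_rfl, by omega, fun ω hω k hk => ?_⟩
    have := hW ω hω k hk
    rw [Finset.card_eq_zero.mp hU] at this
    simp at this
  | succ n ih =>
    intro U W hU hW
    by_cases hp : ∀ ω ∈ W, ∀ k < l, m < (W.filter (fun ω' => f k ω' = f k ω)).card
    · exact ⟨W, subset_rfl, by omega, hp⟩
    push Not at hp
    obtain ⟨ω, hω, k, hk, hlt⟩ := hp
    obtain ⟨W', h1, h2, h3⟩ := ih (U.erase (k, f k ω)) (W.filter (fun ω' => ¬ f k ω' = f k ω))
      (by rw [Finset.card_erase_of_mem (hW ω hω k hk), hU]; rfl) (by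
        intro ω' hω' k' hk'
        rw [Finset.mem_filter] at hω'
        refine Finset.mem_erase.mpr ⟨fun h => ?_, hW ω' hω'.1 k' hk'⟩
        obtain ⟨e1, e2⟩ := Prod.mk.inj h
        subst e1
        exact hω'.2 e2)
    refine ⟨W', h1.trans (Finset.filter_subset _ _), ?_, h3⟩
    have h4 := Finset.card_filter_add_card_filter_not (s := W) (fun ω' => f k ω' = f k ω)
    rw [Nat.succ_mul]
    omega

section chain

variable {F : Type} [Field F] [DecidableEq F] {Ω : Type}

/-- Sum of the first `k` terms. -/
def ps (a y : ℕ → F) (k : ℕ) : F := ∑ j ∈ range k, a j * y j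

omit [DecidableEq F] in
theorem ps_succ (a y : ℕ → F) (k : ℕ) : ps a y (k + 1) = ps a y k + a k * y k :=
  Finset.sum_range_succ _ _

omit [DecidableEq F] in
theorem ps_update (a y : ℕ → F) (k : ℕ) (z : F) :
    ps a (Function.update y k z) (k + 1) = ps a y k + a k * z := by
  rw [ps_succ, Function.update_self]
  congr 1
  refine Finset.sum_congr rfl (fun j hj => ?_)
  rw [Function.update_of_ne (Finset.mem_range.mp hj).ne]

/-- The values that continue a walk at the vertex `s` of level `k`. -/
def outs (a : ℕ → F) (W : Finset Ω) (x : Ω → ℕ → F) (k : ℕ) (s : F) : Finset F :=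
  (W.filter (fun ω => ps a (x ω) k = s)).image (fun ω => x ω k)

/-- Walks of length `k`. -/
structure Walk (a : ℕ → F) (A : Finset F) (W : Finset Ω) (x : Ω → ℕ → F) (k : ℕ)
    (y : ℕ → F) : Prop where
  mem : ∀ j < k, y j ∈ A
  zero : ∀ j, k ≤ j → y j = 0
  inj : ∀ i < k, ∀ j < k, y i = y j → i = j
  ne : ps a y k ≠ 0
  ext : ∃ ω ∈ W, ps a (x ω) k = ps a y k

theorem walk_step (a : ℕ → F) (b : F) (A : Finset F) (W : Finset Ω) (x : Ω → ℕ → F) (k : ℕ)
    (ha : a k ≠ 0) (hx : ∀ ω ∈ W, x ω k ∈ A) (T : Finset (ℕ → F))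
    (hT : ∀ y ∈ T, Walk a A W x k y) :
    ∃ T' : Finset (ℕ → F),
      (∀ y ∈ T', Walk a A W x (k + 1) y ∧ ∀ j < k + 1, ps a y (k + 1) + b * y j ≠ 0) ∧
      ∑ y ∈ T, (outs a W x k (ps a y k)).card ≤ T'.card + T.card * (2 * k + 2) := by
  classical
  set bad : (ℕ → F) → Finset F := fun y =>
    insert (-ps a y k / a k) (insert (-ps a y k / (a k + b))
      ((range k).image y ∪ (range k).image (fun j => (-ps a y k - b * y j) / a k))) with hbad
  have hbc : ∀ y, (bad y).card ≤ 2 * k + 2 := by
    intro y
    have h1 := Finset.card_union_le ((range k).image y)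
      ((range k).image (fun j => (-ps a y k - b * y j) / a k))
    have h2 : ((range k).image y).card ≤ k := Finset.card_image_le.trans (by simp)
    have h3 : ((range k).image (fun j => (-ps a y k - b * y j) / a k)).card ≤ k :=
      Finset.card_image_le.trans (by simp)
    refine (Finset.card_insert_le _ _).trans ?_
    refine (Nat.succ_le_succ (Finset.card_insert_le _ _)).trans ?_
    omega
  set good : (ℕ → F) → Finset F := fun y => outs a W x k (ps a y k) \ bad y with hgood
  refine ⟨(T.sigma good).image (fun q => Function.update q.1 k q.2), ?_, ?_⟩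
  · intro y' hy'
    obtain ⟨⟨y, z⟩, hq, rfl⟩ := Finset.mem_image.mp hy'
    obtain ⟨hy, hz⟩ := Finset.mem_sigma.mp hq
    have hw := hT y hy
    obtain ⟨hz1, hz2⟩ := Finset.mem_sdiff.mp hz
    obtain ⟨ω, hω, hωz⟩ := Finset.mem_image.mp hz1
    obtain ⟨hω1, hω2⟩ := Finset.mem_filter.mp hω
    simp only [hbad, Finset.mem_insert, Finset.mem_union, Finset.mem_image, Finset.mem_range,
      not_or, not_exists, not_and] at hz2 hωz hω2 ⊢
    obtain ⟨b1, b2, b3, b4⟩ := hz2
    have hlt : ∀ j, j < k → Function.update y k z j = y j := fun j hj =>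
      Function.update_of_ne hj.ne _ _
    have hk : Function.update y k z k = z := Function.update_self _ _ _
    refine ⟨⟨fun j hj => ?_, fun j hj => ?_, fun i hi j hj hij => ?_, ?_, ⟨ω, hω1, ?_⟩⟩,
      fun j hj => ?_⟩
    · rcases Nat.lt_succ_iff_lt_or_eq.mp hj with h | h
      · rw [hlt j h]
        exact hw.mem j h
      · rw [h, hk, ← hωz]
        exact hx ω hω1
    · rw [Function.update_of_ne (by omega)]
      exact hw.zero j (by omega)
    · rcases Nat.lt_succ_iff_lt_or_eq.mp hi with h | h <;>
        rcases Nat.lt_succ_iff_lt_or_eq.mp hj with h' | h'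
      · rw [hlt i h, hlt j h'] at hij
        exact hw.inj i h j h' hij
      · rw [hlt i h, h', hk] at hij
        exact absurd hij (b3 i h)
      · rw [hlt j h', h, hk] at hij
        exact absurd hij.symm (b3 j h')
      · rw [h, h']
    · rw [ps_update]
      intro h
      apply b1
      rw [eq_div_iff ha]
      linear_combination h
    · rw [ps_update, ps_succ, hω2, hωz]
    · rw [ps_update]
      intro h0
      rcases Nat.lt_succ_iff_lt_or_eq.mp hj with h | h
      · rw [hlt j h] at h0
        apply b4 j h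
        rw [div_eq_iff ha]
        linear_combination -h0
      · rw [h, hk] at h0
        apply b2
        have hab : a k + b ≠ 0 := by
          intro h1
          apply hw.ne
          linear_combination h0 - z * h1
        rw [eq_div_iff hab]
        linear_combination h0
  · rw [Finset.card_image_of_injOn, Finset.card_sigma, ← smul_eq_mul, ← Finset.sum_const,
      ← Finset.sum_add_distrib]
    · refine Finset.sum_le_sum (fun y _ => ?_)
      exact (Finset.card_le_card_sdiff_add_card (t := bad y)).trans
        (Nat.add_le_add_left (hbc y) _)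
    · rintro ⟨y, z⟩ hq ⟨y', z'⟩ hq' h
      have h1 := hT y (Finset.mem_sigma.mp hq).1
      have h2 := hT y' (Finset.mem_sigma.mp hq').1
      have h3 : Function.update y k z = Function.update y' k z' := h
      have hz : z = z' := by
        have := congrFun h3 k
        rwa [Function.update_self, Function.update_self] at this
      have hy : y = y' := by
        funext j
        by_cases hj : j = k
        · rw [hj, h1.zero k le_rfl, h2.zero k le_rfl]
        · have := congrFun h3 j
          rwa [Function.update_of_ne hj, Function.update_of_ne hj] at this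
      rw [hy, hz]

theorem fibre_le (a : ℕ → F) (W : Finset Ω) (x : Ω → ℕ → F) (k : ℕ) (s : F) (m : ℕ)
    (h : ∀ z, (W.filter (fun ω => ps a (x ω) k = s ∧ x ω k = z)).card ≤ m) :
    (W.filter (fun ω => ps a (x ω) k = s)).card ≤ m * (outs a W x k s).card := by
  refine Finset.card_le_mul_card_image _ m (fun z _ => ?_)
  rw [Finset.filter_filter]
  exact h z

/-- Many solutions with few coincidences give many solutions in distinct elements. -/
theorem chain [Fintype F] (n : ℕ) (a : ℕ → F) (ha : ∀ j < n + 3, a j ≠ 0) (A : Finset F)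
    (h0 : (0 : F) ∉ A) (W : Finset Ω) (x : Ω → ℕ → F) (hx : ∀ ω ∈ W, ∀ j < n + 3, x ω j ∈ A)
    (hs : ∀ ω ∈ W, ps a (x ω) (n + 3) = 0) (m G : ℕ) (hm : 0 < m)
    (hmult : ∀ k, 1 ≤ k → k ≤ n + 1 → ∀ s z,
      (W.filter (fun ω => ps a (x ω) k = s ∧ x ω k = z)).card ≤ m)
    (hbig : (n + 4) * Fintype.card F * (m * (G + (2 * n + 4))) ≤ W.card) :
    ∃ T : Finset (ℕ → F), Fintype.card F * G ^ (n + 1) ≤ T.card ∧ ∀ y ∈ T,
      (∀ j < n + 3, y j ∈ A) ∧ (∀ j, n + 3 ≤ j → y j = 0) ∧
      (∀ i < n + 3, ∀ j < n + 3, y i = y j → i = j) ∧ ps a y (n + 3) = 0 := by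
  classical
  set p := Fintype.card F with hp
  obtain ⟨V, hVW, hVc, hV⟩ := clean (n + 3) (m * (G + (2 * n + 4))) (fun k ω => ps a (x ω) k)
    ((n + 3) * p) (range (n + 3) ×ˢ Finset.univ) W (by simp [hp])
    (fun ω _ k hk => by simp [hk])
  have hVb : p * (m * (G + (2 * n + 4))) ≤ V.card := by
    have : (n + 4) * p * (m * (G + (2 * n + 4))) =
        p * (m * (G + (2 * n + 4))) + (n + 3) * p * (m * (G + (2 * n + 4))) := by ring
    omega
  have hfib : ∀ k, 1 ≤ k → k ≤ n + 1 → ∀ s,
      (V.filter (fun ω => ps a (x ω) k = s)).card ≤ m * (outs a V x k s).card := by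
    intro k h1 h2 s
    refine fibre_le a V x k s m (fun z => le_trans (Finset.card_le_card ?_) (hmult k h1 h2 s z))
    exact Finset.filter_subset_filter _ hVW
  have hind : ∀ i, i ≤ n → ∃ T : Finset (ℕ → F), (∀ y ∈ T, Walk a A V x (i + 2) y ∧
      ∀ j < i + 2, ps a y (i + 2) + a (n + 2) * y j ≠ 0) ∧ p * G ^ (i + 1) ≤ T.card := by
    intro i
    induction i with
    | zero =>
      intro _
      set g : F → ℕ → F := fun z => Function.update (fun _ => 0) 0 z with hg
      have hg0 : ∀ z, g z 0 = z := fun z => Function.update_self _ _ _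
      have hg1 : ∀ z, ps a (g z) 1 = a 0 * z := by
        intro z
        simp [ps, hg0]
      have hx1 : ∀ ω, ps a (x ω) 1 = a 0 * x ω 0 := by
        intro ω
        simp [ps]
      set T1 := V.image (fun ω => g (x ω 0)) with hT1
      have hT1w : ∀ y ∈ T1, Walk a A V x 1 y := by
        intro y hy
        obtain ⟨ω, hω, rfl⟩ := Finset.mem_image.mp hy
        have hA := hx ω (hVW hω) 0 (by omega)
        refine ⟨fun j hj => ?_, fun j hj => ?_, fun i hi j hj _ => by omega, ?_, ⟨ω, hω, ?_⟩⟩
        · rw [show j = 0 by omega, hg0]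
          exact hA
        · exact Function.update_of_ne (by omega) _ _
        · rw [hg1]
          exact mul_ne_zero (ha 0 (by omega)) (fun h => h0 (h ▸ hA))
        · rw [hg1, hx1]
      obtain ⟨T, hT, hTc⟩ := walk_step a (a (n + 2)) A V x 1 (ha 1 (by omega))
        (fun ω hω => hx ω (hVW hω) 1 (by omega)) T1 hT1w
      refine ⟨T, hT, ?_⟩
      have h1 : T1.card ≤ p := by
        have : T1 ⊆ Finset.univ.image g := by
          intro y hy
          obtain ⟨ω, _, rfl⟩ := Finset.mem_image.mp hy
          exact Finset.mem_image_of_mem _ (Finset.mem_univ _)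
        exact (Finset.card_le_card this).trans (Finset.card_image_le.trans (by simp [hp]))
      have h2 : V.card ≤ m * ∑ y ∈ T1, (outs a V x 1 (ps a y 1)).card := by
        rw [Finset.card_eq_sum_card_image (fun ω => g (x ω 0)) V, Finset.mul_sum]
        refine Finset.sum_le_sum (fun y _ => le_trans (Finset.card_le_card ?_)
          (hfib 1 le_rfl (by omega) _))
        intro ω hω
        rw [Finset.mem_filter] at hω ⊢
        refine ⟨hω.1, ?_⟩
        rw [← hω.2, hg1, hx1]
      have h3 : m * (p * (G + (2 * n + 4))) ≤ m * (T.card + T1.card * (2 * 1 + 2)) :=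
        le_trans (le_of_eq (by ring)) (hVb.trans (h2.trans (Nat.mul_le_mul_left _ hTc)))
      have h4 := Nat.le_of_mul_le_mul_left h3 hm
      have h5 : p * (G + (2 * n + 4)) = p * G + p * 4 + 2 * n * p := by ring
      rw [zero_add, pow_one]
      omega
    | succ i ih =>
      intro hi
      obtain ⟨T0, hT0, hT0c⟩ := ih (by omega)
      obtain ⟨T, hT, hTc⟩ := walk_step a (a (n + 2)) A V x (i + 2) (ha _ (by omega))
        (fun ω hω => hx ω (hVW hω) _ (by omega)) T0 (fun y hy => (hT0 y hy).1)
      refine ⟨T, hT, ?_⟩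
      have h1 : T0.card * (G + (2 * n + 4)) ≤
          ∑ y ∈ T0, (outs a V x (i + 2) (ps a y (i + 2))).card := by
        rw [← smul_eq_mul]
        refine Finset.card_nsmul_le_sum _ _ _ (fun y hy => ?_)
        obtain ⟨ω, hω, he⟩ := (hT0 y hy).1.ext
        have h2 := (hV ω hω (i + 2) (by omega)).le.trans (hfib (i + 2) (by omega) (by omega) _)
        rw [he] at h2
        exact Nat.le_of_mul_le_mul_left h2 hm
      have h2 : T0.card * (2 * (i + 2) + 2) ≤ T0.card * (2 * n + 4) :=
        Nat.mul_le_mul_left _ (by omega)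
      have h3 : T0.card * G ≤ T.card := by
        rw [mul_add] at h1
        omega
      calc p * G ^ (i + 1 + 1) = p * G ^ (i + 1) * G := by ring
        _ ≤ T0.card * G := Nat.mul_le_mul_right _ hT0c
        _ ≤ T.card := h3
  obtain ⟨T, hT, hTc⟩ := hind n le_rfl
  have hb := ha (n + 2) (by omega)
  refine ⟨T.image (fun y => Function.update y (n + 2) (-ps a y (n + 2) / a (n + 2))), ?_, ?_⟩
  · rw [Finset.card_image_of_injOn]
    · exact hTc
    · intro y hy y' hy' h
      funext j
      by_cases hj : j = n + 2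
      · rw [hj, (hT y hy).1.zero _ le_rfl, (hT y' hy').1.zero _ le_rfl]
      · have := congrFun h j
        simp only [Function.update_of_ne hj] at this
        exact this
  · intro y' hy'
    obtain ⟨y, hy, rfl⟩ := Finset.mem_image.mp hy'
    obtain ⟨hw, hw2⟩ := hT y hy
    set z := -ps a y (n + 2) / a (n + 2) with hz
    have hz0 : ps a y (n + 2) + a (n + 2) * z = 0 := by
      rw [hz, mul_div_cancel₀ _ hb]
      ring
    have hlt : ∀ j, j < n + 2 → Function.update y (n + 2) z j = y j := fun j hj =>
      Function.update_of_ne hj.ne _ _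
    have hk : Function.update y (n + 2) z (n + 2) = z := Function.update_self _ _ _
    have hne : ∀ j, j < n + 2 → y j ≠ z := by
      intro j hj h
      apply hw2 j hj
      rw [h, hz0]
    refine ⟨fun j hj => ?_, fun j hj => ?_, fun i hi j hj hij => ?_, ?_⟩
    · rcases Nat.lt_succ_iff_lt_or_eq.mp hj with h | h
      · rw [hlt j h]
        exact hw.mem j h
      · obtain ⟨ω, hω, he⟩ := hw.ext
        have h1 := hs ω (hVW hω)
        rw [ps_succ, he] at h1
        have h2 : z = x ω (n + 2) := by
          apply mul_left_cancel₀ hb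
          linear_combination hz0 - h1
        rw [h, hk, h2]
        exact hx ω (hVW hω) _ (by omega)
    · rw [Function.update_of_ne (by omega)]
      exact hw.zero j (by omega)
    · rcases Nat.lt_succ_iff_lt_or_eq.mp hi with h | h <;>
        rcases Nat.lt_succ_iff_lt_or_eq.mp hj with h' | h'
      · rw [hlt i h, hlt j h'] at hij
        exact hw.inj i h j h' hij
      · rw [hlt i h, h', hk] at hij
        exact absurd hij (hne i h)
      · rw [hlt j h', h, hk] at hij
        exact absurd hij.symm (hne j h')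
      · rw [h, h']
    · rw [ps_update, hz0]

end chain

end Pool.Agent.MP_7119ff_nt
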