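import Mathlib

set_option autoImplicit false

namespace Pool.Agent.MP_7119ff_nt

open Finset

/-- Cauchy-Schwarz: many coincidences for a map into a small set. -/
lemma card_sq_le_card_mul_coinc {α β : Type*} [DecidableEq β] (T : Finset α) (V : Finset β)
    (f : α → β) (hf : ∀ a ∈ T, f a ∈ V) :
    T.card ^ 2 ≤ V.card * ((T ×ˢ T).filter (fun z => f z.1 = f z.2)).card := by
  classical
  have h1 : T.card = ∑ v ∈ V, (T.filter (fun a => f a = v)).card :=
    Finset.card_eq_sum_card_fiberwise (fun a ha => hf a ha)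
  have h2 : ((T ×ˢ T).filter (fun z => f z.1 = f z.2)).card
      = ∑ v ∈ V, (T.filter (fun a => f a = v)).card ^ 2 := by
    rw [Finset.card_eq_sum_card_fiberwise (f := fun z : α × α => f z.1) (t := V)]
    · refine Finset.sum_congr rfl (fun v _ => ?_)
      rw [sq, ← Finset.card_product]
      congr 1
      ext z
      simp only [mem_filter, mem_product]
      constructor
      · rintro ⟨⟨⟨h1, h2⟩, h3⟩, h4⟩
        exact ⟨⟨h1, h4⟩, h2, h3 ▸ h4⟩
      · rintro ⟨⟨h1, h2⟩, h3, h4⟩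
        exact ⟨⟨⟨h1, h3⟩, h2.trans h4.symm⟩, h2⟩
    · intro z hz
      simp only [coe_filter, mem_product, Set.mem_setOf_eq] at hz
      exact hf _ hz.1.1
  rw [h1, h2]
  exact sq_sum_le_card_mul_sum_sq

variable {ι : Type} [Fintype ι] [DecidableEq ι]

/-- Solutions of the equation with all entries in `A`. -/
def sol (c : ι → ℤ) (A : Finset ℕ) : Finset (ι → ℕ) :=
  (Fintype.piFinset (fun _ : ι => A)).filter (fun x => ∑ i, c i * (x i : ℤ) = 0)

lemma mem_sol {c : ι → ℤ} {A : Finset ℕ} {x : ι → ℕ} :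
    x ∈ sol c A ↔ (∀ i, x i ∈ A) ∧ ∑ i, c i * (x i : ℤ) = 0 := by
  simp [sol]

/-- Two solutions that agree off one coordinate are equal. -/
lemma eq_of_agree {c : ι → ℤ} (hc : ∀ i, c i ≠ 0) {x y : ι → ℕ}
    (hx : ∑ i, c i * (x i : ℤ) = 0) (hy : ∑ i, c i * (y i : ℤ) = 0) (j : ι)
    (h : ∀ m, m ≠ j → x m = y m) : x = y := by
  have h1 : ∑ i, c i * (x i : ℤ) - ∑ i, c i * (y i : ℤ) = c j * (x j : ℤ) - c j * (y j : ℤ) := by
    rw [← Finset.sum_sub_distrib]
    rw [Finset.sum_eq_single j]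
    · intro m _ hm
      rw [h m hm, sub_self]
    · intro hj
      exact absurd (Finset.mem_univ j) hj
  rw [hx, hy, sub_self, ← mul_sub] at h1
  have h2 : (x j : ℤ) - (y j : ℤ) = 0 := by
    rcases mul_eq_zero.mp h1.symm with h | h
    · exact absurd h (hc j)
    · exact h
  funext m
  by_cases hm : m = j
  · subst hm
    exact_mod_cast sub_eq_zero.mp h2
  · exact h m hm

/-- The crossing of two tuples: coordinates `i`, `k` from `x`, the others from `y`. -/
def cross (i k : ι) (x y : ι → ℕ) : ι → ℕ := fun m => if m = i ∨ m = k then x m else y m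

lemma cross_mem_sol {c : ι → ℤ} {A : Finset ℕ} {i k : ι} (hik : i ≠ k) {x y : ι → ℕ}
    (hx : ∀ m, x m ∈ A) (hy : y ∈ sol c A)
    (h : c i * (x i : ℤ) + c k * (x k : ℤ) = c i * (y i : ℤ) + c k * (y k : ℤ)) :
    cross i k x y ∈ sol c A := by
  rw [mem_sol] at hy ⊢
  refine ⟨fun m => ?_, ?_⟩
  · unfold cross
    split_ifs
    · exact hx m
    · exact hy.1 m
  · have h1 : ∑ m, c m * (cross i k x y m : ℤ) - ∑ m, c m * (y m : ℤ)
        = ∑ m ∈ ({i, k} : Finset ι), (c m * (cross i k x y m : ℤ) - c m * (y m : ℤ)) := by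
      rw [← Finset.sum_sub_distrib]
      symm
      apply Finset.sum_subset (Finset.subset_univ _)
      intro m _ hm
      have : ¬ (m = i ∨ m = k) := by simpa using hm
      simp [cross, this]
    rw [Finset.sum_pair hik, hy.2] at h1
    simp only [cross, true_or, or_true, if_true] at h1
    simp only [cross]
    linarith

lemma val_mem_Icc {c : ι → ℤ} {A : Finset ℕ} {N K : ℕ} (hA : A ⊆ Icc 1 N)
    (hK : ∀ i, |c i| ≤ K) (i k : ι) {x : ι → ℕ} (hx : ∀ m, x m ∈ A) :
    c i * (x i : ℤ) + c k * (x k : ℤ) ∈ Finset.Icc (-(2 * K * N : ℤ)) (2 * K * N) := by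
  have hb : ∀ m, |c m * (x m : ℤ)| ≤ K * N := by
    intro m
    rw [abs_mul]
    have h1 : x m ≤ N := (Finset.mem_Icc.mp (hA (hx m))).2
    have h2 : |(x m : ℤ)| ≤ N := by
      rw [abs_of_nonneg (by positivity)]
      exact_mod_cast h1
    exact mul_le_mul (hK m) h2 (abs_nonneg _) (by positivity)
  have h1 := abs_le.mp (hb i)
  have h2 := abs_le.mp (hb k)
  rw [Finset.mem_Icc]
  constructor <;> linarith [h1.1, h1.2, h2.1, h2.2]

lemma card_Icc_val (K N : ℕ) (hK : 1 ≤ K) (hN : 1 ≤ N) :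
    (Finset.Icc (-(2 * K * N : ℤ)) (2 * K * N)).card ≤ 5 * K * N := by
  rw [Int.card_Icc]
  have h : 1 ≤ K * N := Nat.mul_pos hK hN
  have : (2 * (K : ℤ) * N + 1 - -(2 * K * N)) = ((4 * (K * N) + 1 : ℕ) : ℤ) := by
    push_cast; ring
  rw [this, Int.toNat_natCast]
  nlinarith

variable {ρ : Type} [DecidableEq ρ]

/-- Pairs of a solution and a base point that agree outside `S`. -/
def TS (c : ι → ℤ) (A : Finset ℕ) (P : Finset ρ) (π : ρ → ι → ℕ) (S : Finset ι) :
    Finset ((ι → ℕ) × ρ) :=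
  (sol c A ×ˢ P).filter (fun z => ∀ k, k ∉ S → z.1 k = π z.2 k)

lemma mem_TS {c : ι → ℤ} {A : Finset ℕ} {P : Finset ρ} {π : ρ → ι → ℕ} {S : Finset ι}
    {z : (ι → ℕ) × ρ} :
    z ∈ TS c A P π S ↔ z.1 ∈ sol c A ∧ z.2 ∈ P ∧ ∀ k, k ∉ S → z.1 k = π z.2 k := by
  simp [TS, and_assoc]

lemma base {c : ι → ℤ} {A : Finset ℕ} {N K : ℕ} (hA : A ⊆ Icc 1 N)
    (hK : ∀ i, |c i| ≤ K) (hK1 : 1 ≤ K) (hN : 1 ≤ N) (P : Finset ρ) (π : ρ → ι → ℕ)
    (hP : ∀ p ∈ P, π p ∈ sol c A) {i j : ι} (hij : i ≠ j)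
    (hinj : ∀ p ∈ P, ∀ q ∈ P, π p i = π q i → π p j = π q j → p = q) :
    P.card ^ 2 ≤ 5 * K * N * (TS c A P π {i, j}).card := by
  have h1 := card_sq_le_card_mul_coinc P (Finset.Icc (-(2 * K * N : ℤ)) (2 * K * N))
    (fun p => c i * (π p i : ℤ) + c j * (π p j : ℤ))
    (fun p hp => val_mem_Icc hA hK i j (mem_sol.mp (hP p hp)).1)
  refine h1.trans (Nat.mul_le_mul (card_Icc_val K N hK1 hN) ?_)
  apply Finset.card_le_card_of_injOn (fun z => (cross i j (π z.1) (π z.2), z.2))
  · intro z hz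
    simp only [coe_filter, mem_product, Set.mem_setOf_eq] at hz
    obtain ⟨⟨h1, h2⟩, h3⟩ := hz
    rw [Finset.mem_coe, mem_TS]
    refine ⟨cross_mem_sol hij (mem_sol.mp (hP _ h1)).1 (hP _ h2) h3, h2, ?_⟩
    intro k hk
    have : ¬ (k = i ∨ k = j) := by simpa using hk
    simp [cross, this]
  · intro z hz w hw h
    simp only [coe_filter, mem_product, Set.mem_setOf_eq] at hz hw
    simp only [Prod.mk.injEq] at h
    obtain ⟨h1, h2⟩ := h
    have hi := congrFun h1 i
    have hj := congrFun h1 j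
    simp only [cross, true_or, or_true, if_true] at hi hj
    exact Prod.ext (hinj _ hz.1.1 _ hw.1.1 hi hj) h2

lemma step {c : ι → ℤ} (hc : ∀ i, c i ≠ 0) {A : Finset ℕ} {N K F : ℕ} (hA : A ⊆ Icc 1 N)
    (hK : ∀ i, |c i| ≤ K) (hK1 : 1 ≤ K) (hN : 1 ≤ N) (P : Finset ρ) (π : ρ → ι → ℕ)
    {i j k : ι} (U : Finset ι) (hki : k ≠ i) (hkj : k ≠ j) (hkU : k ∉ U)
    (hF : ∀ a, (P.filter (fun p => π p k = a)).card ≤ F) :
    (TS c A P π (insert i (insert j U))).card ^ 2
      ≤ 5 * K * N * (F * N ^ U.card * (TS c A P π (insert i (insert j (insert k U)))).card) := by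
  set T := TS c A P π (insert i (insert j U)) with hT
  have h1 := card_sq_le_card_mul_coinc T (Finset.Icc (-(2 * K * N : ℤ)) (2 * K * N))
    (fun z => c i * (z.1 i : ℤ) + c k * (z.1 k : ℤ))
    (fun z hz => val_mem_Icc hA hK i k (mem_sol.mp (mem_TS.mp hz).1).1)
  refine h1.trans (Nat.mul_le_mul (card_Icc_val K N hK1 hN) ?_)
  have hkS : k ∉ insert i (insert j U) := by
    simp [hki, hkj, hkU]
  apply Finset.card_le_mul_card_image_of_maps_to
    (f := fun z : ((ι → ℕ) × ρ) × ((ι → ℕ) × ρ) => (cross i k z.1.1 z.2.1, z.2.2))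
  · intro z hz
    simp only [mem_filter, mem_product] at hz
    obtain ⟨⟨h1, h2⟩, h3⟩ := hz
    rw [mem_TS] at h1 h2 ⊢
    refine ⟨cross_mem_sol hki.symm (mem_sol.mp h1.1).1 h2.1 h3, h2.2.1, ?_⟩
    intro m hm
    simp only [mem_insert, not_or] at hm
    have h4 : ¬ (m = i ∨ m = k) := by tauto
    simp only [cross, h4, if_false]
    apply h2.2.2
    simp only [mem_insert, not_or]
    tauto
  · intro w _
    have hAc : A.card ≤ N := by
      have := Finset.card_le_card hA
      simpa using this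
    have hcard : (Fintype.piFinset (fun m : ι => if m ∈ U then A else {0})).card ≤ N ^ U.card := by
      rw [Fintype.card_piFinset]
      have : ∀ m : ι, (if m ∈ U then A else {0}).card = if m ∈ U then A.card else 1 := by
        intro m; split_ifs <;> simp
      simp only [this]
      rw [Finset.prod_ite_mem, Finset.univ_inter, Finset.prod_const]
      exact Nat.pow_le_pow_left hAc _
    refine le_trans ?_ (Nat.mul_le_mul (hF (w.1 k)) hcard)
    rw [← Finset.card_product]
    apply Finset.card_le_card_of_injOn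
      (fun z => (z.1.2, fun m => if m ∈ U then z.1.1 m else 0))
    · intro z hz
      simp only [coe_filter, mem_filter, mem_product, Set.mem_setOf_eq] at hz
      obtain ⟨⟨⟨h1, _⟩, _⟩, h4⟩ := hz
      rw [mem_TS] at h1
      simp only [coe_product, Set.mem_prod, mem_coe, mem_filter, Fintype.mem_piFinset]
      refine ⟨⟨h1.2.1, ?_⟩, fun m => ?_⟩
      · rw [← h1.2.2 k hkS, ← h4]
        simp [cross]
      · split_ifs
        · exact (mem_sol.mp h1.1).1 m
        · simp
    · intro z hz z' hz' h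
      simp only [coe_filter, mem_filter, mem_product, Set.mem_setOf_eq] at hz hz'
      obtain ⟨⟨⟨h1, h2⟩, _⟩, h4⟩ := hz
      obtain ⟨⟨⟨h1', h2'⟩, _⟩, h4'⟩ := hz'
      rw [mem_TS] at h1 h2 h1' h2'
      simp only [Prod.mk.injEq] at h
      obtain ⟨ha, hb⟩ := h
      have hw := h4.trans h4'.symm
      simp only [Prod.mk.injEq] at hw
      obtain ⟨hcr, hq⟩ := hw
      have e1 : z.1.1 = z'.1.1 := by
        apply eq_of_agree hc (mem_sol.mp h1.1).2 (mem_sol.mp h1'.1).2 j
        intro m hm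
        by_cases hmi : m = i
        · have := congrFun hcr m
          simpa [cross, hmi] using this
        · by_cases hmU : m ∈ U
          · have := congrFun hb m
            simpa [hmU] using this
          · have hmS : m ∉ insert i (insert j U) := by simp [hmi, hm, hmU]
            rw [h1.2.2 m hmS, h1'.2.2 m hmS, ha]
      have e2 : z.2.1 = z'.2.1 := by
        apply eq_of_agree hc (mem_sol.mp h2.1).2 (mem_sol.mp h2'.1).2 i
        intro m hm
        by_cases hmk : m = k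
        · rw [hmk, h2.2.2 k hkS, h2'.2.2 k hkS, hq]
        · have := congrFun hcr m
          simpa [cross, hm, hmk] using this
      exact Prod.ext (Prod.ext e1 ha) (Prod.ext e2 hq)

/-- The crossing induction. -/
lemma iterate {c : ι → ℤ} (hc : ∀ i, c i ≠ 0) {A : Finset ℕ} {N K : ℕ} (hA : A ⊆ Icc 1 N)
    (hK : ∀ i, |c i| ≤ K) (hK1 : 1 ≤ K) (hN : 1 ≤ N) (P : Finset ρ) (π : ρ → ι → ℕ)
    (hP : ∀ p ∈ P, π p ∈ sol c A) {i j : ι} (hij : i ≠ j)
    (hinj : ∀ p ∈ P, ∀ q ∈ P, π p i = π q i → π p j = π q j → p = q)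
    (hF : ∀ k a, (P.filter (fun p => π p k = a)).card ≤ 2 * N)
    (lam : ℝ) (hlam0 : 0 ≤ lam) (hlam : lam * (10 * K) * (N : ℝ) ^ 2 ≤ P.card)
    (U : Finset ι) (hi : i ∉ U) (hj : j ∉ U) :
    (10 * K) * lam ^ (2 ^ (U.card + 1)) * (N : ℝ) ^ (U.card + 3)
      ≤ (TS c A P π (insert i (insert j U))).card := by
  have hKr : (1 : ℝ) ≤ K := by exact_mod_cast hK1
  have hNr : (1 : ℝ) ≤ N := by exact_mod_cast hN
  induction U using Finset.induction_on with
  | empty =>
    have h1 := base hA hK hK1 hN P π hP hij hinj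
    have h2 : (P.card : ℝ) ^ 2 ≤ 5 * K * N * (TS c A P π {i, j}).card := by exact_mod_cast h1
    have h3 : (lam * (10 * K) * (N : ℝ) ^ 2) ^ 2 ≤ (P.card : ℝ) ^ 2 :=
      pow_le_pow_left₀ (by positivity) hlam 2
    have h4 : (0 : ℝ) < 10 * K * N := by positivity
    have h5 : (0 : ℝ) ≤ (TS c A P π {i, j}).card := by positivity
    simp only [card_empty, zero_add, pow_one, insert_empty_eq]
    apply le_of_mul_le_mul_left _ h4
    have h6 : 5 * K * N * ((TS c A P π {i, j}).card : ℝ)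
        ≤ 10 * K * N * ((TS c A P π {i, j}).card : ℝ) := by
      apply mul_le_mul_of_nonneg_right _ h5
      nlinarith
    calc 10 * (K : ℝ) * N * (10 * K * lam ^ 2 * N ^ 3)
        = (lam * (10 * K) * (N : ℝ) ^ 2) ^ 2 := by ring
      _ ≤ _ := h3.trans (h2.trans h6)
  | insert k U hkU ih =>
    have hki : k ≠ i := fun h => hi (by simp [h])
    have hkj : k ≠ j := fun h => hj (by simp [h])
    have ih' := ih (fun h => hi (by simp [h])) (fun h => hj (by simp [h]))
    have h1 := step hc hA hK hK1 hN P π U hki hkj hkU (hF k)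
    have h2 : ((TS c A P π (insert i (insert j U))).card : ℝ) ^ 2
        ≤ 5 * K * N * (2 * N * N ^ U.card
          * (TS c A P π (insert i (insert j (insert k U)))).card) := by exact_mod_cast h1
    have h3 := pow_le_pow_left₀ (by positivity) ih' 2
    have h4 : (0 : ℝ) < 10 * K * N ^ (U.card + 2) := by positivity
    rw [Finset.card_insert_of_notMem hkU]
    apply le_of_mul_le_mul_left _ h4
    calc 10 * (K : ℝ) * N ^ (U.card + 2)
          * (10 * K * lam ^ 2 ^ (U.card + 1 + 1) * N ^ (U.card + 1 + 3))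
        = (10 * K * lam ^ 2 ^ (U.card + 1) * N ^ (U.card + 3)) ^ 2 := by
          rw [pow_succ 2 (U.card + 1), pow_mul]; ring
      _ ≤ _ := h3.trans h2
      _ = _ := by ring

/-- A dense two-parameter family of solutions forces many solutions. -/
lemma many_of_family {c : ι → ℤ} (hc : ∀ i, c i ≠ 0) {A : Finset ℕ} {N K : ℕ} (hA : A ⊆ Icc 1 N)
    (hK : ∀ i, |c i| ≤ K) (hK1 : 1 ≤ K) (hN : 1 ≤ N) (P : Finset ρ) (π : ρ → ι → ℕ)
    (hP : ∀ p ∈ P, π p ∈ sol c A) {i j : ι} (hij : i ≠ j)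
    (hinj : ∀ p ∈ P, ∀ q ∈ P, π p i = π q i → π p j = π q j → p = q)
    (hF : ∀ k a, (P.filter (fun p => π p k = a)).card ≤ 2 * N)
    (lam : ℝ) (hlam0 : 0 ≤ lam) (hlam : lam * (10 * K) * (N : ℝ) ^ 2 ≤ P.card) :
    lam ^ (2 ^ (Fintype.card ι - 1)) * (N : ℝ) ^ (Fintype.card ι) ≤ N * (sol c A).card := by
  have hKr : (1 : ℝ) ≤ K := by exact_mod_cast hK1
  have hNr : (1 : ℝ) ≤ N := by exact_mod_cast hN
  set U : Finset ι := (Finset.univ.erase i).erase j with hU
  have hi : i ∉ U := by simp [hU]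
  have hj : j ∉ U := by simp [hU]
  have hall : insert i (insert j U) = Finset.univ := by
    ext m
    simp only [hU, mem_insert, mem_erase, mem_univ, and_true, iff_true]
    tauto
  have hcard : Fintype.card ι = U.card + 2 := by
    have h1 : i ∉ insert j U := by simp [hij, hi]
    rw [← Finset.card_univ, ← hall, Finset.card_insert_of_notMem h1,
      Finset.card_insert_of_notMem hj]
  have h1 := iterate hc hA hK hK1 hN P π hP hij hinj hF lam hlam0 hlam U hi hj
  have h2 : (TS c A P π (insert i (insert j U))).card ≤ (sol c A).card * P.card := by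
    rw [← Finset.card_product]
    exact Finset.card_filter_le _ _
  have hAc : A.card ≤ N := by
    have := Finset.card_le_card hA
    simpa using this
  have h3 : P.card ≤ N * N := by
    refine le_trans ?_ (Nat.mul_le_mul hAc hAc)
    rw [← Finset.card_product]
    apply Finset.card_le_card_of_injOn (fun p => (π p i, π p j))
    · intro p hp
      have := (mem_sol.mp (hP p hp)).1
      simp [this]
    · intro p hp q hq h
      simp only [Prod.mk.injEq] at h
      exact hinj p hp q hq h.1 h.2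
  have h4 : ((TS c A P π (insert i (insert j U))).card : ℝ) ≤ (sol c A).card * (N * N) := by
    exact_mod_cast h2.trans (Nat.mul_le_mul_left _ h3)
  rw [hcard]
  have h5 : U.card + 2 - 1 = U.card + 1 := by omega
  rw [h5]
  have h6 : (0 : ℝ) < N := by positivity
  apply le_of_mul_le_mul_left _ h6
  have h7 : (0 : ℝ) ≤ lam ^ (2 ^ (U.card + 1)) * (N : ℝ) ^ (U.card + 3) := by positivity
  calc (N : ℝ) * (lam ^ 2 ^ (U.card + 1) * N ^ (U.card + 2))
      = lam ^ (2 ^ (U.card + 1)) * (N : ℝ) ^ (U.card + 3) := by ring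
    _ ≤ (10 * K) * (lam ^ (2 ^ (U.card + 1)) * (N : ℝ) ^ (U.card + 3)) := by nlinarith
    _ = (10 * K) * lam ^ (2 ^ (U.card + 1)) * (N : ℝ) ^ (U.card + 3) := by ring
    _ ≤ _ := h1.trans h4
    _ = _ := by ring

end Pool.Agent.MP_7119ff_nt
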