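import Pool.Agent.MP_7119ff_nt.Product
import Pool.Agent.MP_7119ff_nt.Cross

/-! Equations with few solutions in sets of size close to the square root. -/

set_option autoImplicit false

namespace Pool.Agent.MP_7119ff_nt

open Finset

theorem behrend_map_lt (D n : ℕ) : ∀ x : Fin n → ℕ, (∀ i, x i < D) → Behrend.map D x < D ^ n := by
  induction n with
  | zero =>
    intro x _
    rw [Behrend.map_zero]
    simp
  | succ n ih =>
    intro x hx
    have h1 := ih (x ∘ Fin.succ) (fun i => hx _)
    have h2 := hx 0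
    have h3 : (Behrend.map D (x ∘ Fin.succ) + 1) * D ≤ D ^ n * D := Nat.mul_le_mul_right _ h1
    rw [Behrend.map_succ', pow_succ]
    rw [add_mul] at h3
    omega

/-- Large sets in which an average of `k + 1` elements is an element only in the trivial way. -/
theorem exists_convex_free (k d L : ℕ) (hL : 1 ≤ L) (hd : 1 ≤ d) :
    ∃ A : Finset ℕ, A ⊆ range (((k + 1) * L) ^ d) ∧ (L : ℝ) ^ d ≤ d * L ^ 2 * A.card ∧
      ∀ (z : Fin (k + 1) → ℕ) (w : ℕ), (∀ i, z i ∈ A) → w ∈ A → ∑ i, z i = (k + 1) * w →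
        ∀ i, z i = w := by
  obtain ⟨R, hR⟩ := Behrend.exists_large_sphere d L
  have hlt : ∀ x ∈ Behrend.sphere d L R, ∀ t, x t < L := fun x hx =>
    Behrend.mem_box.mp (Behrend.sphere_subset_box hx)
  have hLD : L ≤ (k + 1) * L := Nat.le_mul_of_pos_left L (by omega)
  refine ⟨(Behrend.sphere d L R).image (Behrend.map ((k + 1) * L)), ?_, ?_, ?_⟩
  · intro a ha
    obtain ⟨x, hx, rfl⟩ := Finset.mem_image.mp ha
    exact Finset.mem_range.mpr (behrend_map_lt _ _ x (fun t => (hlt x hx t).trans_le hLD))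
  · rw [Finset.card_image_of_injOn
      (Behrend.map_injOn.mono (fun x hx t => (hlt x hx t).trans_le hLD))]
    rw [div_le_iff₀ (by positivity)] at hR
    push_cast at hR
    linarith
  · intro z w hz hw hs
    choose v hv1 hv2 using fun i => Finset.mem_image.mp (hz i)
    obtain ⟨u, hu1, hu2⟩ := Finset.mem_image.mp hw
    have h1 : ∑ i, v i = (k + 1) • u := by
      apply Behrend.map_injOn (d := (k + 1) * L)
      · intro t
        rw [Finset.sum_apply]
        calc ∑ i, v i t < ∑ _i : Fin (k + 1), L :=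
              Finset.sum_lt_sum_of_nonempty Finset.univ_nonempty (fun i _ => hlt _ (hv1 i) t)
          _ = _ := by simp
      · intro t
        rw [Pi.smul_apply, smul_eq_mul]
        exact Nat.mul_lt_mul_of_pos_left (hlt u hu1 t) (by omega)
      · rw [map_sum, map_nsmul, hu2, smul_eq_mul, ← hs]
        exact Finset.sum_congr rfl (fun i _ => hv2 i)
    have h2 : ∀ t, ∑ i, (v i t : ℤ) = (k + 1) * u t := by
      intro t
      have := congrFun h1 t
      rw [Finset.sum_apply, Pi.smul_apply, smul_eq_mul] at this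
      exact_mod_cast this
    have h3 : ∀ x ∈ Behrend.sphere d L R, ∑ t, (x t : ℤ) ^ 2 = R := by
      intro x hx
      exact_mod_cast (Finset.mem_filter.mp hx).2
    have h4 : ∑ i, ∑ t, ((v i t : ℤ) - u t) ^ 2 = 0 := by
      have h5 : ∀ i, ∑ t, ((v i t : ℤ) - u t) ^ 2 = 2 * R - 2 * ∑ t, (u t : ℤ) * v i t := by
        intro i
        rw [two_mul (R : ℤ)]
        nth_rewrite 1 [← h3 _ (hv1 i)]
        rw [← h3 _ hu1, Finset.mul_sum, ← Finset.sum_add_distrib, ← Finset.sum_sub_distrib]
        exact Finset.sum_congr rfl (fun t _ => by ring)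
      have h6 : ∑ i, ∑ t, (u t : ℤ) * v i t = (k + 1) * R := by
        rw [Finset.sum_comm, ← h3 _ hu1, Finset.mul_sum]
        refine Finset.sum_congr rfl (fun t _ => ?_)
        rw [← Finset.mul_sum, h2 t]
        ring
      simp only [h5]
      rw [Finset.sum_sub_distrib, ← Finset.mul_sum, ← Finset.mul_sum, h6]
      simp
    intro i
    have h7 := (Finset.sum_eq_zero_iff_of_nonneg
      (fun i _ => Finset.sum_nonneg (fun t _ => sq_nonneg _))).mp h4 i (Finset.mem_univ _)
    have h8 : v i = u := by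
      funext t
      have := (Finset.sum_eq_zero_iff_of_nonneg (fun t _ => sq_nonneg _)).mp h7 t
        (Finset.mem_univ _)
      have := pow_eq_zero_iff (two_ne_zero) |>.mp this
      omega
    rw [← hv2 i, h8, hu2]

theorem digitSet_forced {ι : Type} [Fintype ι] {c : ι → ℤ} {B : Finset ℕ} {K M : ℕ}
    (hK : ∑ i, |c i| < K) (hM : 1 ≤ M) (hB : B ⊆ range M) (P : ι → ι → Prop)
    (h : ∀ x : ι → ℕ, (∀ i, x i ∈ B) → ∑ i, c i * (x i : ℤ) = 0 → ∀ i j, P i j → x i = x j)
    (k : ℕ) : ∀ x : ι → ℕ, (∀ i, x i ∈ digitSet B (K * M) k) → ∑ i, c i * (x i : ℤ) = 0 →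
      ∀ i j, P i j → x i = x j := by
  induction k with
  | zero =>
    intro x hx _ i j _
    have h1 := hx i
    have h2 := hx j
    simp only [digitSet, mem_singleton] at h1 h2
    rw [h1, h2]
  | succ k ih =>
    intro x hx hs
    have h1 : ∀ i, ∃ z : ℕ × ℕ, z.1 ∈ B ∧ z.2 ∈ digitSet B (K * M) k ∧
        x i = z.1 + K * M * z.2 := by
      intro i
      have := hx i
      simp only [digitSet, mem_image, mem_product] at this
      obtain ⟨z, ⟨h1, h2⟩, h3⟩ := this
      exact ⟨z, h1, h2, h3.symm⟩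
    choose z hz1 hz2 hz3 using h1
    have h2 : ∑ i, c i * (x i : ℤ)
        = ∑ i, c i * ((z i).1 : ℤ) + (K * M : ℕ) * ∑ i, c i * ((z i).2 : ℤ) := by
      rw [Finset.mul_sum, ← Finset.sum_add_distrib]
      refine Finset.sum_congr rfl (fun i _ => ?_)
      rw [hz3 i]
      push_cast
      ring
    have h3 : |∑ i, c i * ((z i).1 : ℤ)| < (K * M : ℕ) := by
      calc |∑ i, c i * ((z i).1 : ℤ)| ≤ ∑ i, |c i * ((z i).1 : ℤ)| := Finset.abs_sum_le_sum_abs _ _
        _ ≤ ∑ i, |c i| * M := by
          refine Finset.sum_le_sum (fun i _ => ?_)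
          rw [abs_mul]
          apply mul_le_mul_of_nonneg_left _ (abs_nonneg _)
          rw [abs_of_nonneg (by positivity)]
          have := Finset.mem_range.mp (hB (hz1 i))
          exact_mod_cast this.le
        _ = (∑ i, |c i|) * M := by rw [Finset.sum_mul]
        _ < (K * M : ℕ) := by
          push_cast
          apply mul_lt_mul_of_pos_right hK
          exact_mod_cast hM
    have h4 : ((K * M : ℕ) : ℤ) ∣ ∑ i, c i * ((z i).1 : ℤ) :=
      ⟨-∑ i, c i * ((z i).2 : ℤ), by linarith⟩
    have h5 : ∑ i, c i * ((z i).1 : ℤ) = 0 := Int.eq_zero_of_abs_lt_dvd h4 h3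
    have h6 : ∑ i, c i * ((z i).2 : ℤ) = 0 := by
      rw [hs, h5, zero_add] at h2
      rcases mul_eq_zero.mp h2.symm with h7 | h7
      · rw [h5, h7] at h3
        simp at h3
      · exact h7
    intro i j hij
    rw [hz3 i, hz3 j, h (fun i => (z i).1) hz1 h5 i j hij, ih (fun i => (z i).2) hz2 h6 i j hij]

/-- The variables of the example. -/
abbrev Ix (a k : ℕ) : Type := (Fin (a + 1) × Bool) ⊕ Option (Fin (k + 1))

/-- The coefficients of the example. -/
def cf (a k : ℕ) (B : ℤ) : Ix a k → ℤ
  | .inl (_, true) => 1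
  | .inl (_, false) => -1
  | .inr none => -((k + 1) * B)
  | .inr (some _) => B

/-- The parts of the example. -/
def pt (a k : ℕ) : Ix a k → Option (Fin (a + 1))
  | .inl (j, _) => some j
  | .inr _ => none

theorem cf_sum (a k : ℕ) (B : ℤ) (x : Ix a k → ℤ) : ∑ i, cf a k B i * x i =
    ∑ j, (x (.inl (j, true)) - x (.inl (j, false))) +
      B * (∑ i, x (.inr (some i)) - (k + 1) * x (.inr none)) := by
  rw [Fintype.sum_sum_type, Fintype.sum_prod_type, Fintype.sum_option]
  simp only [Fintype.sum_bool, cf]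
  rw [← Finset.mul_sum]
  refine congrArg₂ _ (Finset.sum_congr rfl (fun j _ => by ring)) (by ring)

theorem cf_abs (a k B : ℕ) : ∑ i, |cf a k B i| = 2 * (a + 1) + 2 * (k + 1) * B := by
  rw [Fintype.sum_sum_type, Fintype.sum_prod_type, Fintype.sum_option]
  have h : |((k : ℤ) + 1) * B| = (k + 1) * B := abs_of_nonneg (by positivity)
  simp [cf, h]
  ring

theorem cf_ne (a k : ℕ) {B : ℤ} (hB : 0 < B) (i : Ix a k) : cf a k B i ≠ 0 := by
  rcases i with ⟨_, _ | _⟩ | _ | _
  · simp [cf]
  · simp [cf]
  · exact neg_ne_zero.mpr (by positivity)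
  · exact hB.ne'

theorem cf_part (a k : ℕ) (B : ℤ) (j : Option (Fin (a + 1))) :
    ∑ i ∈ Finset.univ.filter (fun i => pt a k i = j), cf a k B i = 0 := by
  have h := cf_sum a k B (fun i => if pt a k i = j then 1 else 0)
  rw [Finset.sum_filter]
  refine Eq.trans (Finset.sum_congr rfl (fun i _ => ?_)) (h.trans ?_)
  · split_ifs <;> simp
  · cases j <;> simp [pt]

theorem pt_surj (a k : ℕ) : Function.Surjective (pt a k) := by
  rintro (_ | j)
  · exact ⟨.inr none, rfl⟩
  · exact ⟨.inl (j, true), rfl⟩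

theorem sol_le (a k : ℕ) {B : ℤ} (hB : 0 < B) (A : Finset ℕ)
    (h : ∀ x ∈ sol (cf a k B) A, ∀ i, x (.inr (some i)) = x (.inr none)) :
    (sol (cf a k B) A).card ≤ A.card ^ (2 * a + 2) := by
  have h1 : (Fintype.piFinset (fun _ : Fin (a + 1) × Bool => A)).card = A.card ^ (2 * a + 2) := by
    rw [Fintype.card_piFinset, Finset.prod_const, Finset.card_univ, Fintype.card_prod,
      Fintype.card_fin, Fintype.card_bool]
    ring
  rw [← h1]
  refine Finset.card_le_card_of_injOn
    (fun x p => if p = (0, true) then x (.inr none) else x (.inl p)) (fun x hx => ?_)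
    (fun x hx y hy e => ?_)
  · refine Fintype.mem_piFinset.mpr (fun p => ?_)
    have := (mem_sol.mp hx).1
    by_cases hp : p = (0, true)
    · simp only [if_pos hp]
      exact this _
    · simp only [if_neg hp]
      exact this _
  · have h2 : x (.inr none) = y (.inr none) := by simpa using congrFun e (0, true)
    refine eq_of_agree (cf_ne a k hB) (mem_sol.mp hx).2 (mem_sol.mp hy).2 (.inl (0, true)) ?_
    rintro (p | _ | i) hp
    · have hp' : p ≠ (0, true) := fun h => hp (by rw [h])
      simpa only [if_neg hp'] using congrFun e p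
    · exact h2
    · rw [h x hx i, h y hy i, h2]

/-- The example has few solutions at infinitely many scales. -/
theorem few_solutions (a k : ℕ) (η : ℝ) (hη : 0 < η) :
    ∃ B : ℤ, 0 < B ∧ ∀ γ : ℝ, 0 < γ → ∃ N : ℕ, 1 ≤ N ∧ ∃ A : Finset ℕ, A ⊆ Icc 1 N ∧
      0 < A.card ∧ ((sol (cf a k B) A).card : ℝ) <
        γ * ((A.card : ℝ) / N) ^ (2 * ((a : ℝ) + k + 2) - η) * (N : ℝ) ^ (2 * (a : ℝ) + k + 3) := by
  obtain ⟨d, hd⟩ := exists_nat_ge ((4 * ((k : ℝ) + 1) + 1) / η)
  rw [div_le_iff₀ hη] at hd
  have hk0 : (0 : ℝ) ≤ k := by positivity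
  have hd0 : (0 : ℝ) < d := by
    by_contra hneg
    nlinarith
  have hd1 : 1 ≤ d := by exact_mod_cast hd0
  set c1 : ℕ := (2 * a + 2 * k + 5) * (a + 1) with hc1
  set Y : ℝ := (k + 1) * (2 * Real.log d + Real.log c1 + 2 * d * Real.log (k + 1 : ℕ)) with hY
  obtain ⟨L, hL⟩ := exists_nat_gt (Real.exp Y + 1)
  have hL1r : (1 : ℝ) < L := by linarith [Real.exp_pos Y]
  have hL1 : 1 ≤ L := by exact_mod_cast hL1r.le
  have hL0 : (0 : ℝ) < L := by linarith
  have hYL : Y < Real.log L := (Real.lt_log_iff_exp_lt hL0).mpr (by linarith)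
  have hx0 : 0 < Real.log L := Real.log_pos hL1r
  obtain ⟨A0, hA1, hA2, hA3⟩ := exists_convex_free k d L hL1 hd1
  set M := ((k + 1) * L) ^ d with hM
  have hM1 : 1 ≤ M := Nat.succ_le_of_lt (by positivity)
  set B : ℕ := (a + 1) * M with hB
  have hB0 : 0 < B := by positivity
  set K : ℕ := 2 * (a + 1) + 2 * (k + 1) * B + 1 with hK
  have hKc : ∑ i, |cf a k B i| < K := by
    rw [cf_abs, hK]
    push_cast
    linarith
  have hβ : (0 : ℝ) < A0.card := by
    by_contra hneg
    have h1 : (0 : ℝ) < (L : ℝ) ^ d := by positivity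
    have h2 : (0 : ℝ) < d * (L : ℝ) ^ 2 := by positivity
    nlinarith
  have hq : (0 : ℝ) < (K * M : ℕ) := by exact_mod_cast (by positivity : 0 < K * M)
  have f1 := Real.log_le_log (by positivity) hA2
  rw [Real.log_mul (by positivity) hβ.ne', Real.log_mul hd0.ne' (by positivity), Real.log_pow,
    Real.log_pow] at f1
  have f2 : Real.log (K * M : ℕ) ≤
      Real.log c1 + 2 * d * (Real.log (k + 1 : ℕ) + Real.log L) := by
    have h1 : K * M ≤ c1 * ((k + 1) * L) ^ (2 * d) := by
      have h2 : a + 1 ≤ B := Nat.le_mul_of_pos_right _ hM1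
      have h3 : K ≤ (2 * a + 2 * k + 5) * B := by
        rw [hK]
        nlinarith
      refine (Nat.mul_le_mul_right _ h3).trans (le_of_eq ?_)
      rw [hc1, hB, hM]
      ring
    have h2 : ((K * M : ℕ) : ℝ) ≤ c1 * (((k + 1 : ℕ) : ℝ) * L) ^ (2 * d) := by exact_mod_cast h1
    have h3 := Real.log_le_log hq h2
    rw [Real.log_mul (by positivity) (by positivity), Real.log_pow,
      Real.log_mul (by positivity) hL0.ne'] at h3
    push_cast at h3 ⊢
    exact h3
  have f3 : d * Real.log L + Real.log A0.card ≤ Real.log (K * M : ℕ) := by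
    have h1 : L ^ d * A0.card ≤ K * M := by
      refine Nat.mul_le_mul ?_ (by simpa using Finset.card_le_card hA1)
      have h2 : L ^ d ≤ M := Nat.pow_le_pow_left (Nat.le_mul_of_pos_left L (by omega)) d
      have h3 : M ≤ B := Nat.le_mul_of_pos_left M (by omega)
      have h4 : B ≤ 2 * (k + 1) * B := Nat.le_mul_of_pos_left B (by omega)
      omega
    have h2 : (L : ℝ) ^ d * A0.card ≤ ((K * M : ℕ) : ℝ) := by exact_mod_cast h1
    have h3 := Real.log_le_log (by positivity) h2
    rwa [Real.log_mul (by positivity) hβ.ne', Real.log_pow] at h3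
  set s : ℝ := (k + 1) * (2 * Real.log A0.card - Real.log (K * M : ℕ)) +
    η * (Real.log (K * M : ℕ) - Real.log A0.card) with hs
  have hs0 : 0 < s := by
    have h1 : η * (d * Real.log L) ≤ η * (Real.log (K * M : ℕ) - Real.log A0.card) :=
      mul_le_mul_of_nonneg_left (by linarith) hη.le
    have h2 : (4 * ((k : ℝ) + 1) + 1) * Real.log L ≤ d * η * Real.log L :=
      mul_le_mul_of_nonneg_right hd hx0.le
    have h3 : ((k : ℝ) + 1) * (-4 * Real.log L -
        (2 * Real.log d + Real.log c1 + 2 * d * Real.log (k + 1 : ℕ))) ≤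
        (k + 1) * (2 * Real.log A0.card - Real.log (K * M : ℕ)) := by
      refine mul_le_mul_of_nonneg_left ?_ (by linarith)
      push_cast at f1
      linarith
    rw [hs]
    rw [hY] at hYL
    linarith
  have hB0' : (0 : ℤ) < B := by exact_mod_cast hB0
  refine ⟨B, hB0', fun γ hγ => ?_⟩
  obtain ⟨t, ht⟩ := exists_nat_gt (-Real.log γ / s)
  rw [div_lt_iff₀ hs0] at ht
  have hAq : ∀ b ∈ A0, b < K * M := fun b hb =>
    (Finset.mem_range.mp (hA1 hb)).trans_le (Nat.le_mul_of_pos_left M (by omega))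
  have hcard : ((digitSet A0 (K * M) t).image (· + 1)).card = A0.card ^ t := by
    rw [Finset.card_image_of_injective _ (add_left_injective 1), digitSet_card hAq]
  have hforce := digitSet_forced hKc hM1 hA1 (fun i j => ∃ i', i = .inr (some i') ∧ j = .inr none)
    (by
      rintro x hx hsum _ _ ⟨i, rfl, rfl⟩
      rw [cf_sum a k B (fun i => (x i : ℤ))] at hsum
      have h1 : |∑ j, ((x (.inl (j, true)) : ℤ) - x (.inl (j, false)))| < B := by
        refine (Finset.abs_sum_le_sum_abs _ _).trans_lt ?_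
        calc ∑ j, |(x (.inl (j, true)) : ℤ) - x (.inl (j, false))| < ∑ _j : Fin (a + 1), (M : ℤ) :=
              Finset.sum_lt_sum_of_nonempty Finset.univ_nonempty (fun j _ => by
                have b1 := Finset.mem_range.mp (hA1 (hx (.inl (j, true))))
                have b2 := Finset.mem_range.mp (hA1 (hx (.inl (j, false))))
                rw [abs_lt]
                constructor <;> omega)
          _ = B := by simp [hB]
      have h2 := Int.eq_zero_of_abs_lt_dvd
        ⟨-(∑ i, (x (.inr (some i)) : ℤ) - (k + 1) * x (.inr none)), by linarith⟩ h1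
      rw [h2, zero_add] at hsum
      have h3 := (mul_eq_zero.mp hsum).resolve_left hB0'.ne'
      exact hA3 (fun i => x (.inr (some i))) _ (fun i => hx _) (hx _)
        (by exact_mod_cast sub_eq_zero.mp h3) i) t
  refine ⟨(K * M) ^ t, Nat.succ_le_of_lt (by positivity), (digitSet A0 (K * M) t).image (· + 1),
    ?_, ?_, ?_⟩
  · intro b hb
    obtain ⟨b', hb', rfl⟩ := Finset.mem_image.mp hb
    have := digitSet_lt hAq t b' hb'
    rw [Finset.mem_Icc]
    omega
  · rw [hcard]
    exact pow_pos (by exact_mod_cast hβ) t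
  · have h1 := sol_le a k hB0' ((digitSet A0 (K * M) t).image (· + 1)) (by
      intro x hx i
      obtain ⟨hx1, hx2⟩ := mem_sol.mp hx
      choose y hy1 hy2 using fun i => Finset.mem_image.mp (hx1 i)
      have h4 : ∑ i, cf a k B i * (y i : ℤ) = 0 := by
        have h5 : ∑ i, cf a k B i * (x i : ℤ) =
            ∑ i, cf a k B i * (y i : ℤ) + ∑ i, cf a k B i * 1 := by
          rw [← Finset.sum_add_distrib]
          refine Finset.sum_congr rfl (fun i _ => ?_)
          rw [← hy2 i]
          push_cast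
          ring
        have h6 := cf_sum a k B (fun _ => 1)
        simp only [sub_self, Finset.sum_const, Finset.card_univ, Fintype.card_fin, smul_zero,
          nsmul_eq_mul] at h6
        push_cast at h6
        linarith
      rw [← hy2, ← hy2, hforce y hy1 h4 _ _ ⟨i, rfl, rfl⟩])
    refine lt_of_le_of_lt (Nat.cast_le.mpr h1) ?_
    rw [hcard, Nat.cast_pow, Nat.cast_pow, Nat.cast_pow,
      ← Real.log_lt_log_iff (by positivity) (by positivity),
      Real.log_mul (by positivity) (by positivity), Real.log_mul hγ.ne' (by positivity),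
      Real.log_rpow (by positivity), Real.log_rpow (by positivity),
      Real.log_div (by positivity) (by positivity), Real.log_pow, Real.log_pow, Real.log_pow]
    rw [hs] at ht
    push_cast at ht ⊢
    linarith

end Pool.Agent.MP_7119ff_nt
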