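import Pool.Agent.MP_7119ff_nt.Chain
import Pool.Agent.MP_7119ff_nt.Cross

/-! Lower bound for the number of solutions of an equation that splits into invariant parts. -/

set_option autoImplicit false

namespace Pool.Agent.MP_7119ff_nt

open Finset

variable {ι κ : Type} [Fintype ι] [DecidableEq ι] [Fintype κ] [DecidableEq κ]

/-- Tuples with entries in `A` on `R` and zero elsewhere. -/
def bx (A : Finset ℕ) (R : Finset ι) : Finset (ι → ℕ) :=
  Fintype.piFinset (fun i => if i ∈ R then A else {0})

theorem mem_bx {A : Finset ℕ} {R : Finset ι} {x : ι → ℕ} :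
    x ∈ bx A R ↔ (∀ i ∈ R, x i ∈ A) ∧ ∀ i, i ∉ R → x i = 0 := by
  rw [bx, Fintype.mem_piFinset]
  constructor
  · intro h
    refine ⟨fun i hi => ?_, fun i hi => ?_⟩
    · simpa [hi] using h i
    · simpa [hi] using h i
  · intro h i
    by_cases hi : i ∈ R
    · simpa [hi] using h.1 i hi
    · simpa [hi] using h.2 i hi

theorem card_bx (A : Finset ℕ) (R : Finset ι) : (bx A R).card = A.card ^ R.card := by
  rw [bx, Fintype.card_piFinset]
  simp only [apply_ite Finset.card, Finset.card_singleton]
  rw [Finset.prod_ite_mem, Finset.univ_inter, Finset.prod_const]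

/-- Representations of `s` by the variables in `R`. -/
def reps (c : ι → ℤ) (A : Finset ℕ) (R : Finset ι) (s : ℤ) : Finset (ι → ℕ) :=
  (bx A R).filter (fun x => ∑ i ∈ R, c i * (x i : ℤ) = s)

theorem reps_insert (c : ι → ℤ) (A : Finset ℕ) (R : Finset ι) (i : ι) (hi : i ∉ R) (s : ℤ)
    (O : Finset ℕ) (hO : O ⊆ A) :
    ∑ a ∈ O, (reps c A R (s - c i * a)).card ≤ (reps c A (insert i R) s).card := by
  rw [← Finset.card_sigma]
  refine Finset.card_le_card_of_injOn (fun q => Function.update q.2 i q.1) ?_ ?_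
  · rintro ⟨a, x⟩ hq
    obtain ⟨ha, hx⟩ := Finset.mem_sigma.mp hq
    obtain ⟨hx1, hx2⟩ := Finset.mem_filter.mp hx
    obtain ⟨hx3, hx4⟩ := mem_bx.mp hx1
    have hne : ∀ j ∈ R, Function.update x i a j = x j := fun j hj =>
      Function.update_of_ne (ne_of_mem_of_not_mem hj hi) _ _
    refine Finset.mem_filter.mpr ⟨mem_bx.mpr ⟨fun j hj => ?_, fun j hj => ?_⟩, ?_⟩
    · show Function.update x i a j ∈ A
      rcases Finset.mem_insert.mp hj with h | h
      · rw [h, Function.update_self]
        exact hO ha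
      · rw [hne j h]
        exact hx3 j h
    · show Function.update x i a j = 0
      rw [Finset.mem_insert, not_or] at hj
      rw [Function.update_of_ne hj.1]
      exact hx4 j hj.2
    · show ∑ j ∈ insert i R, c j * (Function.update x i a j : ℤ) = s
      rw [Finset.sum_insert hi, Function.update_self,
        Finset.sum_congr rfl (g := fun j => c j * (x j : ℤ)) (fun j hj => by rw [hne j hj])]
      have hx5 : ∑ j ∈ R, c j * (x j : ℤ) = s - c i * a := hx2
      rw [hx5]
      ring
  · rintro ⟨a, x⟩ hq ⟨a', x'⟩ hq' h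
    have h1 := (mem_bx.mp (Finset.mem_filter.mp (Finset.mem_sigma.mp hq).2).1).2 i hi
    have h2 := (mem_bx.mp (Finset.mem_filter.mp (Finset.mem_sigma.mp hq').2).1).2 i hi
    have h3 : Function.update x i a = Function.update x' i a' := h
    have ha : a = a' := by
      have := congrFun h3 i
      rwa [Function.update_self, Function.update_self] at this
    have hx : x = x' := by
      funext j
      by_cases hj : j = i
      · rw [hj]
        exact h1.trans h2.symm
      · have := congrFun h3 j
        rwa [Function.update_of_ne hj, Function.update_of_ne hj] at this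
    rw [ha, hx]

/-- The part of a trivial solution that belongs to the variables in `R`. -/
def gs (c : ι → ℤ) (π : ι → κ) (R : Finset ι) (ω : κ → ℕ) : ℤ := ∑ i ∈ R, c i * (ω (π i) : ℤ)

omit [Fintype ι] [DecidableEq ι] in
theorem mult_le (c : ι → ℤ) (π : ι → κ) (A : Finset ℕ) (W : Finset (κ → ℕ))
    (hW : ∀ ω ∈ W, ∀ j, ω j ∈ A) (R : Finset ι) (j j' : κ) (hj : j ≠ j')
    (hσ : ∑ i ∈ R.filter (fun i => π i = j'), c i ≠ 0) (m : ℕ) (hm : Fintype.card κ = m + 2)
    (s : ℤ) (a : ℕ) :
    ((W.filter (fun ω => gs c π R ω = s)).filter (fun ω => ω j = a)).card ≤ A.card ^ m := by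
  have hc : (({j, j'} : Finset κ)ᶜ).card = m := by
    rw [Finset.card_compl, Finset.card_pair hj, hm]
    rfl
  rw [← hc, ← card_bx]
  refine Finset.card_le_card_of_injOn
    (fun ω k => if k ∈ ({j, j'} : Finset κ)ᶜ then ω k else 0) (fun ω hω => ?_)
    (fun ω hω ω' hω' h => ?_)
  · have h1 := (Finset.mem_filter.mp (Finset.mem_filter.mp hω).1).1
    refine mem_bx.mpr ⟨fun k hk => ?_, fun k hk => if_neg hk⟩
    simp only [if_pos hk]
    exact hW ω h1 k
  · obtain ⟨a1, a2⟩ := Finset.mem_filter.mp hω
    obtain ⟨b1, b2⟩ := Finset.mem_filter.mp hω'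
    have a3 := (Finset.mem_filter.mp a1).2
    have b3 := (Finset.mem_filter.mp b1).2
    have h1 : ∀ k, k ≠ j' → ω k = ω' k := by
      intro k hk
      by_cases hkj : k = j
      · rw [hkj, a2, b2]
      · have := congrFun h k
        have hm : k ∈ ({j, j'} : Finset κ)ᶜ := by simp [hk, hkj]
        simpa only [if_pos hm] using this
    have h2 : gs c π R ω - gs c π R ω' =
        (∑ i ∈ R.filter (fun i => π i = j'), c i) * ((ω j' : ℤ) - ω' j') := by
      rw [gs, gs, ← Finset.sum_sub_distrib, Finset.sum_mul, Finset.sum_filter]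
      refine Finset.sum_congr rfl (fun i _ => ?_)
      by_cases hi : π i = j'
      · rw [if_pos hi, hi]
        ring
      · rw [if_neg hi, h1 _ hi, sub_self]
    rw [a3, b3, sub_self] at h2
    have h3 := (mul_eq_zero.mp h2.symm).resolve_left hσ
    funext k
    by_cases hk : k = j'
    · rw [hk]
      omega
    · exact h1 k hk

theorem grow (c : ι → ℤ) (π : ι → κ) (A : Finset ℕ) (hA : 0 < A.card) (W : Finset (κ → ℕ))
    (hW : ∀ ω ∈ W, ∀ j, ω j ∈ A) (m : ℕ) (hm : Fintype.card κ = m + 2) (T : ℕ)
    (hT : ∀ R : Finset ι, ∀ ω ∈ W,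
      A.card ^ (m + 2) ≤ T * (W.filter (fun ω' => gs c π R ω' = gs c π R ω)).card)
    (R : Finset ι) (j' : κ) (hσ : ∑ i ∈ R.filter (fun i => π i = j'), c i ≠ 0) (b e : ℕ)
    (hb : ∀ ω ∈ W, b ≤ T ^ e * (reps c A R (gs c π R ω)).card) (D : Finset ι) :
    (∀ i ∈ D, i ∉ R ∧ π i ≠ j') → ∀ ω ∈ W, b * A.card ^ (2 * D.card) ≤
      T ^ (e + D.card) * (reps c A (D ∪ R) (gs c π (D ∪ R) ω)).card := by
  induction D using Finset.induction_on with
  | empty =>
    intro _ ω hω
    simpa using hb ω hω
  | insert i D hi ih =>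
    intro hD ω hω
    have ih := ih (fun k hk => hD k (Finset.mem_insert_of_mem hk))
    obtain ⟨hiR, hij⟩ := hD i (Finset.mem_insert_self _ _)
    have hi' : i ∉ D ∪ R := by simp [hi, hiR]
    rw [Finset.insert_union, Finset.card_insert_of_notMem hi]
    set s := gs c π (insert i (D ∪ R)) ω with hs
    set F := W.filter (fun ω' => gs c π (insert i (D ∪ R)) ω' = s) with hF
    have hfil : (insert i (D ∪ R)).filter (fun i => π i = j') = R.filter (fun i => π i = j') := by
      ext k
      simp only [Finset.mem_filter, Finset.mem_insert, Finset.mem_union]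
      constructor
      · rintro ⟨h | h | h, h'⟩
        · exact absurd (h ▸ h') hij
        · exact absurd h' (hD k (Finset.mem_insert_of_mem h)).2
        · exact ⟨h, h'⟩
      · rintro ⟨h, h'⟩
        exact ⟨Or.inr (Or.inr h), h'⟩
    have h1 : F.card ≤ A.card ^ m * (F.image (fun ω' => ω' (π i))).card :=
      Finset.card_le_mul_card_image _ _ (fun a _ =>
        mult_le c π A W hW _ (π i) j' hij (by rw [hfil]; exact hσ) m hm s a)
    set O := F.image (fun ω' => ω' (π i)) with hO
    have h2 : A.card ^ 2 ≤ T * O.card := by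
      have h3 := (hT (insert i (D ∪ R)) ω hω).trans (Nat.mul_le_mul_left T h1)
      refine Nat.le_of_mul_le_mul_left (c := A.card ^ m) ?_ (pow_pos hA m)
      rw [← pow_add]
      exact h3.trans (le_of_eq (by ring))
    have h4 := reps_insert c A (D ∪ R) i hi' s O (by
      intro a ha
      obtain ⟨ω', h, rfl⟩ := Finset.mem_image.mp ha
      exact hW ω' (Finset.mem_filter.mp h).1 _)
    have h5 : O.card * (b * A.card ^ (2 * D.card)) ≤
        T ^ (e + D.card) * ∑ a ∈ O, (reps c A (D ∪ R) (s - c i * a)).card := by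
      rw [Finset.mul_sum, ← smul_eq_mul]
      refine Finset.card_nsmul_le_sum _ _ _ (fun a ha => ?_)
      obtain ⟨ω', h, rfl⟩ := Finset.mem_image.mp ha
      obtain ⟨h6, h7⟩ := Finset.mem_filter.mp h
      have h8 : s - c i * (ω' (π i) : ℤ) = gs c π (D ∪ R) ω' := by
        rw [← h7, gs, Finset.sum_insert hi', gs]
        ring
      rw [h8]
      exact ih ω' h6
    calc b * A.card ^ (2 * (D.card + 1)) = A.card ^ 2 * (b * A.card ^ (2 * D.card)) := by ring
      _ ≤ T * O.card * (b * A.card ^ (2 * D.card)) := Nat.mul_le_mul_right _ h2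
      _ = T * (O.card * (b * A.card ^ (2 * D.card))) := by ring
      _ ≤ T * (T ^ (e + D.card) * (reps c A (insert i (D ∪ R)) s).card) :=
        Nat.mul_le_mul_left _ (h5.trans (Nat.mul_le_mul_left _ h4))
      _ = _ := by ring

/-- The count of solutions. -/
theorem genus_count (c : ι → ℤ) (hc : ∀ i, c i ≠ 0) (π : ι → κ) (hπ : Function.Surjective π)
    (hs : ∀ j, ∑ i ∈ Finset.univ.filter (fun i => π i = j), c i = 0) (m q : ℕ)
    (hm : Fintype.card κ = m + 2) (hq : Fintype.card ι = 2 * (m + 2) + q) :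
    ∃ K : ℕ, 0 < K ∧ ∀ N : ℕ, 1 ≤ N → ∀ A : Finset ℕ, A ⊆ Icc 1 N →
      A.card ^ (2 * (m + 2) + 2 * q) ≤ 2 * (K * N) ^ (q + 1) * (sol c A).card := by
  obtain ⟨K, hKdef⟩ : ∃ K : ℕ, K = (∑ i, |c i|).natAbs + 1 := ⟨_, rfl⟩
  have hK : ∑ i, |c i| < K := by omega
  have hK1 : 1 ≤ K := by omega
  have hoz : ∀ j, ∃ o z : ι, π o = j ∧ π z = j ∧ o ≠ z := by
    intro j
    obtain ⟨o, ho⟩ := hπ j
    by_contra hcon
    have h1 : Finset.univ.filter (fun i => π i = j) = {o} := by
      ext i
      simp only [Finset.mem_filter, Finset.mem_univ, true_and, Finset.mem_singleton]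
      refine ⟨fun h => ?_, fun h => h ▸ ho⟩
      by_contra hne
      exact hcon ⟨i, o, h, ho, hne⟩
    have h2 := hs j
    rw [h1, Finset.sum_singleton] at h2
    exact hc o h2
  choose o z ho hz hoz using hoz
  have hoi : Function.Injective o := fun a b h => by rw [← ho a, h, ho b]
  have hzi : Function.Injective z := fun a b h => by rw [← hz a, h, hz b]
  have hoz' : ∀ a b, o a ≠ z b := by
    intro a b h
    have : a = b := by rw [← ho a, h, hz b]
    exact hoz a (this ▸ h)
  obtain ⟨j0, j1, hj⟩ := Fintype.exists_pair_of_one_lt_card (α := κ) (by omega)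
  set l := Fintype.card (Finset ι) with hl
  have hl0 : 0 < l := Fintype.card_pos
  refine ⟨2 * l * 3 * K, by positivity, fun N hN A hA => ?_⟩
  rcases Nat.eq_zero_or_pos A.card with hA0 | hA0
  · rw [hA0, zero_pow (by omega)]
    exact Nat.zero_le _
  set e := Fintype.equivFin (Finset ι) with he
  set G : ℕ → Finset ι := fun k => if h : k < l then e.symm ⟨k, h⟩ else ∅ with hG
  have hGe : ∀ R, G (e R) = R := fun R => (dif_pos (e R).2).trans (e.symm_apply_apply R)
  set n := l * (2 * (K * N) + 1) with hn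
  have hKN : 0 < K * N := by positivity
  have hn0 : 0 < n := by positivity
  obtain ⟨W, hW0, hWc, hWf⟩ := clean l (A.card ^ (m + 2) / (2 * n)) (fun k => gs c π (G k)) n
    (range l ×ˢ Finset.Icc (-(K * N : ℤ)) (K * N)) (Fintype.piFinset (fun _ : κ => A))
    (by
      rw [Finset.card_product, Finset.card_range, Int.card_Icc]
      have h4 : (K : ℤ) * N + 1 - -(K * N) = ((2 * (K * N) + 1 : ℕ) : ℤ) := by
        push_cast
        ring
      rw [h4, Int.toNat_natCast])
    (by
      intro ω hω k hk
      rw [Finset.mem_product, Finset.mem_range, Finset.mem_Icc]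
      refine ⟨hk, abs_le.mp ((Finset.abs_sum_le_sum_abs _ _).trans ?_)⟩
      calc ∑ i ∈ G k, |c i * (ω (π i) : ℤ)| ≤ ∑ i ∈ G k, |c i| * N :=
            Finset.sum_le_sum (fun i _ => by
              rw [abs_mul, abs_of_nonneg (a := (ω (π i) : ℤ)) (by positivity)]
              refine mul_le_mul_of_nonneg_left ?_ (abs_nonneg _)
              exact_mod_cast (Finset.mem_Icc.mp (hA (Fintype.mem_piFinset.mp hω (π i)))).2)
        _ ≤ ∑ i, |c i| * N := Finset.sum_le_sum_of_subset_of_nonneg (Finset.subset_univ _)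
            (fun _ _ _ => by positivity)
        _ = (∑ i, |c i|) * N := by rw [Finset.sum_mul]
        _ ≤ K * N := mul_le_mul_of_nonneg_right hK.le (by positivity))
  have hW : ∀ ω ∈ W, ∀ j, ω j ∈ A := fun ω hω => Fintype.mem_piFinset.mp (hW0 hω)
  have hWc2 : A.card ^ (m + 2) ≤ 2 * W.card := by
    rw [Fintype.card_piFinset, Finset.prod_const, Finset.card_univ, hm] at hWc
    have h1 := Nat.mul_div_le (A.card ^ (m + 2)) (2 * n)
    rw [mul_assoc] at h1
    omega
  set T := 2 * l * 3 * K * N with hT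
  have hT2 : ∀ R : Finset ι, ∀ ω ∈ W,
      A.card ^ (m + 2) ≤ T * (W.filter (fun ω' => gs c π R ω' = gs c π R ω)).card := by
    intro R ω hω
    have h1 := hWf ω hω (e R) (e R).2
    simp only [hGe] at h1
    have h2 := Nat.lt_mul_div_succ (A.card ^ (m + 2)) (b := 2 * n) (by omega)
    refine h2.le.trans (Nat.mul_le_mul ?_ h1)
    have h3 : T = 2 * (l * (3 * (K * N))) := by
      rw [hT]
      ring
    rw [h3, hn]
    exact Nat.mul_le_mul_left _ (Nat.mul_le_mul_left _ (by omega))
  set Z := Finset.univ.image z with hZ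
  set O := Finset.univ.image o with hO
  have hzZ : ∀ j, z j ∈ Z := fun j => Finset.mem_image_of_mem _ (Finset.mem_univ _)
  have hoO : ∀ j, o j ∈ O := fun j => Finset.mem_image_of_mem _ (Finset.mem_univ _)
  have hbase : ∀ ω ∈ W, A.card ^ (m + 2) ≤ T ^ 1 * (reps c A Z (gs c π Z ω)).card := by
    intro ω hω
    rw [pow_one]
    refine (hT2 Z ω hω).trans (Nat.mul_le_mul_left _ ?_)
    refine Finset.card_le_card_of_injOn (fun ω' i => if i ∈ Z then ω' (π i) else 0)
      (fun ω' h => ?_) (fun ω1 _ ω2 _ h => ?_)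
    · obtain ⟨h1, h2⟩ := Finset.mem_filter.mp h
      refine Finset.mem_filter.mpr ⟨mem_bx.mpr ⟨fun i hi => ?_, fun i hi => if_neg hi⟩, ?_⟩
      · simp only [if_pos hi]
        exact hW ω' h1 _
      · rw [← h2]
        exact Finset.sum_congr rfl (fun i hi => by simp only [if_pos hi])
    · funext j
      have := congrFun h (z j)
      simpa only [if_pos (hzZ j), hz] using this
  set D0 := ((O ∪ Z)ᶜ).filter (fun i => π i = j0) with hD0
  set D1 := ((O ∪ Z)ᶜ).filter (fun i => ¬ π i = j0) with hD1
  have hg0 := grow c π A hA0 W hW m hm T hT2 Z j1 (by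
    have h1 : Z.filter (fun i => π i = j1) = {z j1} := by
      ext i
      simp only [Finset.mem_filter, Finset.mem_singleton]
      constructor
      · rintro ⟨h, h'⟩
        obtain ⟨j, _, rfl⟩ := Finset.mem_image.mp h
        rw [← h', hz]
      · rintro rfl
        exact ⟨hzZ _, hz _⟩
    rw [h1, Finset.sum_singleton]
    exact hc _) _ _ hbase D0 (by
    intro i hi
    obtain ⟨h1, h2⟩ := Finset.mem_filter.mp hi
    rw [Finset.mem_compl, Finset.mem_union, not_or] at h1
    exact ⟨h1.2, h2 ▸ hj⟩)
  have hg1 := grow c π A hA0 W hW m hm T hT2 (D0 ∪ Z) j0 (by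
    have h1 : Finset.univ.filter (fun i => π i = j0) =
        insert (o j0) ((D0 ∪ Z).filter (fun i => π i = j0)) := by
      ext i
      simp only [hD0, Finset.mem_filter, Finset.mem_insert, Finset.mem_union, Finset.mem_univ,
        true_and, Finset.mem_compl]
      constructor
      · intro h
        by_cases h2 : i ∈ O
        · obtain ⟨j, _, rfl⟩ := Finset.mem_image.mp h2
          left
          rw [← h, ho]
        · tauto
      · rintro (rfl | h)
        · exact ho _
        · exact h.2
    have h2 : o j0 ∉ (D0 ∪ Z).filter (fun i => π i = j0) := by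
      intro h
      rcases Finset.mem_union.mp (Finset.mem_filter.mp h).1 with h | h
      · exact Finset.mem_compl.mp (Finset.mem_filter.mp h).1 (Finset.mem_union_left _ (hoO _))
      · obtain ⟨j, _, h⟩ := Finset.mem_image.mp h
        exact hoz' _ _ h.symm
    have h3 := hs j0
    rw [h1, Finset.sum_insert h2] at h3
    intro h
    rw [h, add_zero] at h3
    exact hc _ h3) _ _ hg0 D1 (by
    intro i hi
    obtain ⟨h1, h2⟩ := Finset.mem_filter.mp hi
    refine ⟨fun h => ?_, h2⟩
    rcases Finset.mem_union.mp h with h | h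
    · exact h2 (Finset.mem_filter.mp h).2
    · exact Finset.mem_compl.mp h1 (Finset.mem_union_right _ h))
  have hOZ : Disjoint O Z := by
    rw [Finset.disjoint_left]
    intro i h1 h2
    obtain ⟨a, _, rfl⟩ := Finset.mem_image.mp h1
    obtain ⟨b, _, h⟩ := Finset.mem_image.mp h2
    exact hoz' _ _ h.symm
  have hD : D0.card + D1.card = q := by
    rw [hD0, hD1, Finset.card_filter_add_card_filter_not, Finset.card_compl,
      Finset.card_union_of_disjoint hOZ, Finset.card_image_of_injective _ hoi,
      Finset.card_image_of_injective _ hzi, Finset.card_univ, hm, hq]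
    omega
  have hR : D1 ∪ (D0 ∪ Z) = Oᶜ := by
    ext i
    have : i ∈ O → i ∉ Z := fun h => Finset.disjoint_left.mp hOZ h
    simp only [hD0, hD1, Finset.mem_filter, Finset.mem_union, Finset.mem_compl]
    tauto
  rw [hR] at hg1
  have hfin : ∑ ω ∈ W, (reps c A Oᶜ (gs c π Oᶜ ω)).card ≤ (sol c A).card := by
    rw [← Finset.card_sigma]
    refine Finset.card_le_card_of_injOn (fun y i => if i ∈ O then y.1 (π i) else y.2 i) ?_ ?_
    · rintro ⟨ω, x⟩ hy
      obtain ⟨h1, h2⟩ := Finset.mem_sigma.mp hy
      obtain ⟨h3, h4⟩ := Finset.mem_filter.mp h2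
      refine mem_sol.mpr ⟨fun i => ?_, ?_⟩
      · by_cases hi : i ∈ O
        · simp only [if_pos hi]
          exact hW ω h1 _
        · simp only [if_neg hi]
          exact (mem_bx.mp h3).1 i (Finset.mem_compl.mpr hi)
      · have h5 : ∑ i, c i * (ω (π i) : ℤ) = 0 := by
          rw [← Finset.sum_fiberwise Finset.univ π]
          refine Finset.sum_eq_zero (fun j _ => ?_)
          rw [Finset.sum_congr rfl (g := fun i => c i * (ω j : ℤ))
            (fun i hi => by rw [(Finset.mem_filter.mp hi).2]), ← Finset.sum_mul, hs j, zero_mul]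
        have h6 : ∑ i ∈ Oᶜ, c i * (x i : ℤ) = ∑ i ∈ Oᶜ, c i * (ω (π i) : ℤ) := h4
        rw [← h5, ← Finset.sum_add_sum_compl O, ← Finset.sum_add_sum_compl O, ← h6]
        refine congrArg₂ _ (Finset.sum_congr rfl (fun i hi => ?_))
          (Finset.sum_congr rfl (fun i hi => ?_))
        · simp only [if_pos hi]
        · simp only [if_neg (Finset.mem_compl.mp hi)]
    · rintro ⟨ω, x⟩ hy ⟨ω', x'⟩ hy' h
      have h1 := (mem_bx.mp (Finset.mem_filter.mp (Finset.mem_sigma.mp hy).2).1).2
      have h2 := (mem_bx.mp (Finset.mem_filter.mp (Finset.mem_sigma.mp hy').2).1).2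
      have hω : ω = ω' := by
        funext j
        have := congrFun h (o j)
        simpa only [if_pos (hoO j), ho] using this
      have hx : x = x' := by
        funext i
        by_cases hi : i ∈ O
        · exact (h1 i (by simpa using hi)).trans (h2 i (by simpa using hi)).symm
        · have := congrFun h i
          simpa only [if_neg hi] using this
      rw [hω, hx]
  have h7 : W.card * (A.card ^ (m + 2) * A.card ^ (2 * D0.card) * A.card ^ (2 * D1.card)) ≤
      T ^ (1 + D0.card + D1.card) * ∑ ω ∈ W, (reps c A Oᶜ (gs c π Oᶜ ω)).card := by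
    rw [Finset.mul_sum, ← smul_eq_mul]
    exact Finset.card_nsmul_le_sum _ _ _ hg1
  calc A.card ^ (2 * (m + 2) + 2 * q) = A.card ^ (m + 2) *
        (A.card ^ (m + 2) * A.card ^ (2 * D0.card) * A.card ^ (2 * D1.card)) := by
        rw [← hD]
        ring
    _ ≤ 2 * W.card * (A.card ^ (m + 2) * A.card ^ (2 * D0.card) * A.card ^ (2 * D1.card)) :=
        Nat.mul_le_mul_right _ hWc2
    _ ≤ 2 * (T ^ (1 + D0.card + D1.card) * (sol c A).card) := by
        rw [mul_assoc]
        exact Nat.mul_le_mul_left _ (h7.trans (Nat.mul_le_mul_left _ hfin))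
    _ = _ := by
        rw [← hD]
        ring

end Pool.Agent.MP_7119ff_nt
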