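import Pool.Agent.MP_7119ff_nt.Product

/-! Ordering the variables, greedy families of solutions, and the product trick. -/

set_option autoImplicit false

namespace Pool.Agent.MP_7119ff_nt

open Finset

section order

variable {ι : Type} [DecidableEq ι]

/-- `t` is not constant on `R`. -/
def NC (t : ι → ℤ) (R : Finset ι) : Prop := ∃ i ∈ R, ∃ j ∈ R, t i ≠ t j

theorem pick_erase (c t : ι → ℤ) (hc : ∀ i, c i ≠ 0) (R : Finset ι) (w : ι) (hw : w ∈ R)
    (hN : NC t R) (h3 : 3 ≤ R.card) :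
    NC t (R.erase w) ∨ ∃ w' ∈ R, ∑ i ∈ R, c i * (t w' - t i) ≠ 0 ∧ NC t (R.erase w') := by
  by_cases h : NC t (R.erase w)
  · exact Or.inl h
  right
  have hconst : ∀ i ∈ R.erase w, ∀ j ∈ R.erase w, t i = t j := by
    intro i hi j hj
    by_contra hij
    exact h ⟨i, hi, j, hj, hij⟩
  have h2 : 1 < (R.erase w).card := by
    rw [Finset.card_erase_of_mem hw]
    omega
  obtain ⟨u, hu, v, hv, huv⟩ := Finset.one_lt_card.mp h2
  have hwu : t w ≠ t u := by
    intro e
    have hall : ∀ i ∈ R, t i = t u := by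
      intro i hi
      by_cases hiw : i = w
      · rw [hiw, e]
      · exact hconst i (Finset.mem_erase.mpr ⟨hiw, hi⟩) u hu
    obtain ⟨i, hi, j, hj, hij⟩ := hN
    exact hij ((hall i hi).trans (hall j hj).symm)
  refine ⟨u, Finset.mem_of_mem_erase hu, ?_, w, ?_, v, ?_, ?_⟩
  · rw [Finset.sum_eq_single w]
    · exact mul_ne_zero (hc w) (sub_ne_zero.mpr hwu.symm)
    · intro i hi hiw
      rw [hconst i (Finset.mem_erase.mpr ⟨hiw, hi⟩) u hu, sub_self, mul_zero]
    · intro h'
      exact absurd hw h'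
  · exact Finset.mem_erase.mpr ⟨(Finset.ne_of_mem_erase hu).symm, hw⟩
  · exact Finset.mem_erase.mpr ⟨huv.symm, Finset.mem_of_mem_erase hv⟩
  · rw [hconst v hv u hu]
    exact hwu

omit [DecidableEq ι] in
theorem sum_sub_eq (c t : ι → ℤ) (R : Finset ι) (z : ℤ) :
    ∑ i ∈ R, c i * (z - t i) = (∑ i ∈ R, c i) * z - ∑ i ∈ R, c i * t i := by
  rw [Finset.sum_mul, ← Finset.sum_sub_distrib]
  exact Finset.sum_congr rfl (fun i _ => by ring)

theorem extend_ord (R : Finset ι) (w : ι) (hw : w ∈ R) (m : ℕ) (e' : ℕ → ι)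
    (h : (range m).image e' = R.erase w) :
    ∃ e : ℕ → ι, (range (m + 1)).image e = R ∧ (∀ j < m, e j = e' j) ∧ e m = w := by
  have h1 : ∀ j < m, Function.update e' m w j = e' j := fun j hj =>
    Function.update_of_ne hj.ne _ _
  refine ⟨Function.update e' m w, ?_, h1, Function.update_self _ _ _⟩
  rw [Finset.range_add_one, Finset.image_insert, Function.update_self,
    Finset.image_congr (g := e') (fun j hj => h1 j (Finset.mem_range.mp hj)), h,
    Finset.insert_erase hw]

theorem exists_ord (c t : ι → ℤ) (hc : ∀ i, c i ≠ 0) (n : ℕ) :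
    ∀ R : Finset ι, R.card = n + 1 → (1 ≤ n → NC t R) →
      (1 ≤ n → (∑ i ∈ R, c i ≠ 0 ∨ ∑ i ∈ R, c i * t i ≠ 0)) →
      ∃ e : ℕ → ι, (range (n + 1)).image e = R ∧
        ∀ k, 1 ≤ k → k ≤ n → ∑ j ∈ range k, c (e j) * (t (e k) - t (e j)) ≠ 0 := by
  induction n with
  | zero =>
    intro R hR _ _
    obtain ⟨w, rfl⟩ := Finset.card_eq_one.mp hR
    exact ⟨fun _ => w, by simp, fun k h1 h2 => by omega⟩
  | succ n ih =>
    intro R hR hN hs
    have hN := hN (by omega)
    have hs := hs (by omega)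
    have h1 : ∃ w ∈ R, ∑ i ∈ R, c i * (t w - t i) ≠ 0 := by
      by_contra hcon
      push Not at hcon
      obtain ⟨i, hi, j, hj, hij⟩ := hN
      have e1 := hcon i hi
      have e2 := hcon j hj
      rw [sum_sub_eq] at e1 e2
      have e3 : (∑ i ∈ R, c i) * (t i - t j) = 0 := by linear_combination e1 - e2
      have e4 : ∑ i ∈ R, c i = 0 := (mul_eq_zero.mp e3).resolve_right (sub_ne_zero.mpr hij)
      rcases hs with h | h
      · exact h e4
      · apply h
        rw [e4] at e1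
        linarith
    have h2 : ∃ w ∈ R, ∑ i ∈ R, c i * (t w - t i) ≠ 0 ∧ (1 ≤ n → NC t (R.erase w)) := by
      obtain ⟨w, hw, hf⟩ := h1
      by_cases hn : 1 ≤ n
      · rcases pick_erase c t hc R w hw hN (by omega) with h | ⟨w', hw', h, h'⟩
        · exact ⟨w, hw, hf, fun _ => h⟩
        · exact ⟨w', hw', h, fun _ => h'⟩
      · exact ⟨w, hw, hf, fun h => absurd h hn⟩
    obtain ⟨w, hw, hf, hN'⟩ := h2
    have hcard : (R.erase w).card = n + 1 := by
      rw [Finset.card_erase_of_mem hw, hR]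
      rfl
    have hf' : ∑ i ∈ R.erase w, c i * (t w - t i) ≠ 0 := by
      rw [Finset.sum_erase _ (by simp)]
      exact hf
    obtain ⟨e', he1, he2⟩ := ih (R.erase w) hcard hN' (fun _ => by
      by_contra hcon
      push Not at hcon
      apply hf'
      rw [sum_sub_eq, hcon.1, hcon.2]
      simp)
    obtain ⟨e, h3, h4, h5⟩ := extend_ord R w hw (n + 1) e' he1
    refine ⟨e, h3, fun k hk1 hk2 => ?_⟩
    have h6 : ∑ j ∈ range k, c (e j) * (t (e k) - t (e j)) =
        ∑ j ∈ range k, c (e' j) * (t (e k) - t (e' j)) :=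
      Finset.sum_congr rfl (fun j hj => by
        rw [h4 j (lt_of_lt_of_le (Finset.mem_range.mp hj) hk2)])
    rw [h6]
    rcases Nat.lt_or_ge k (n + 1) with h | h
    · rw [h4 k h]
      exact he2 k hk1 (by omega)
    · have hk : k = n + 1 := by omega
      rw [hk, h5]
      have hinj : Set.InjOn e' (range (n + 1) : Finset ℕ) :=
        Finset.card_image_iff.mp (by rw [he1, hcard, Finset.card_range])
      rw [← he1, Finset.sum_image hinj] at hf'
      exact hf'

theorem exists_ord_univ [Fintype ι] (c t : ι → ℤ) (hc : ∀ i, c i ≠ 0) (hs : ∑ i, c i = 0)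
    (n : ℕ) (hn : Fintype.card ι = n + 3) (ht : ∃ i j, t i ≠ t j) :
    ∃ e : ℕ → ι, (range (n + 3)).image e = Finset.univ ∧
      ∀ k, 1 ≤ k → k ≤ n + 1 → ∑ j ∈ range k, c (e j) * (t (e k) - t (e j)) ≠ 0 := by
  obtain ⟨i, j, hij⟩ := ht
  have hN : NC t Finset.univ := ⟨i, Finset.mem_univ _, j, Finset.mem_univ _, hij⟩
  have h1 : ∃ w, NC t (Finset.univ.erase w) := by
    rcases pick_erase c t hc Finset.univ i (Finset.mem_univ _) hN (by simp [hn]) with
      h | ⟨w', _, _, h'⟩
    · exact ⟨i, h⟩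
    · exact ⟨w', h'⟩
  obtain ⟨w, hw⟩ := h1
  obtain ⟨e', he1, he2⟩ := exists_ord c t hc (n + 1) (Finset.univ.erase w)
    (by rw [Finset.card_erase_of_mem (Finset.mem_univ _), Finset.card_univ, hn]; rfl)
    (fun _ => hw) (fun _ => Or.inl (by
      intro h
      have := Finset.add_sum_erase Finset.univ c (Finset.mem_univ w)
      rw [h, hs, add_zero] at this
      exact hc w this))
  obtain ⟨e, h3, h4, _⟩ := extend_ord Finset.univ w (Finset.mem_univ _) (n + 2) e' he1
  refine ⟨e, h3, fun k hk1 hk2 => ?_⟩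
  have h6 : ∑ j ∈ range k, c (e j) * (t (e k) - t (e j)) =
      ∑ j ∈ range k, c (e' j) * (t (e' k) - t (e' j)) :=
    Finset.sum_congr rfl (fun j hj => by
      have := Finset.mem_range.mp hj
      rw [h4 j (by omega), h4 k (by omega)])
  rw [h6]
  exact he2 k hk1 hk2

end order

variable {ι : Type} [Fintype ι]

/-- A greedy family of nonconstant solutions. -/
theorem greedy (c : ι → ℤ) (r n : ℕ) : ∀ B : Finset ℕ, B.card ≤ n →
    (∀ B' ⊆ B, OnlyConst c B' → B'.card ≤ r) →
    ∃ S : Finset (ι → ℕ),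
      (∀ t ∈ S, (∀ i, t i ∈ B) ∧ ∑ i, c i * (t i : ℤ) = 0 ∧ ∃ i j, t i ≠ t j) ∧
      (∀ t ∈ S, ∀ t' ∈ S, ∀ i, t i = t' i → t = t') ∧
      B.card ≤ r + Fintype.card ι * S.card := by
  classical
  induction n with
  | zero =>
    intro B hB _
    exact ⟨∅, by simp, by simp, by omega⟩
  | succ n ih =>
    intro B hB hr
    by_cases h : OnlyConst c B
    · exact ⟨∅, by simp, by simp, by simpa using hr B subset_rfl h⟩
    unfold OnlyConst at h
    push Not at h
    obtain ⟨t, ht1, ht2, i, j, hij⟩ := h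
    have hsub : Finset.univ.image t ⊆ B := by
      intro b hb
      obtain ⟨k, _, rfl⟩ := Finset.mem_image.mp hb
      exact ht1 k
    have hpos : 0 < (Finset.univ.image t).card :=
      Finset.card_pos.mpr ⟨t i, Finset.mem_image_of_mem _ (Finset.mem_univ _)⟩
    have hle : (Finset.univ.image t).card ≤ Fintype.card ι := Finset.card_image_le
    have hc := Finset.card_sdiff_add_card_eq_card hsub
    obtain ⟨S, h1, h2, h3⟩ := ih (B \ Finset.univ.image t) (by omega)
      (fun B' hB' => hr B' (hB'.trans Finset.sdiff_subset))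
    have hne : ∀ t' ∈ S, ∀ k, t k ≠ t' k := by
      intro t' ht' k e
      exact (Finset.mem_sdiff.mp ((h1 t' ht').1 k)).2
        (e ▸ Finset.mem_image_of_mem _ (Finset.mem_univ k))
    have hnot : t ∉ S := fun h => hne t h i rfl
    refine ⟨insert t S, fun t' ht' => ?_, fun t1 h4 t2 h5 k e => ?_, ?_⟩
    · rcases Finset.mem_insert.mp ht' with h | h
      · rw [h]
        exact ⟨ht1, ht2, i, j, hij⟩
      · exact ⟨fun k => (Finset.mem_sdiff.mp ((h1 t' h).1 k)).1, (h1 t' h).2⟩
    · rcases Finset.mem_insert.mp h4 with h | h <;> rcases Finset.mem_insert.mp h5 with h' | h'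
      · rw [h, h']
      · rw [h] at e
        exact absurd e (hne t2 h' k)
      · rw [h'] at e
        exact absurd e.symm (hne t1 h k)
      · exact h2 t1 h t2 h' k e
    · rw [Finset.card_insert_of_notMem hnot, mul_add]
      omega

/-- The product trick: a bound at infinitely many scales gives a bound at every scale. -/
theorem all_scales {c : ι → ℤ} (hs : ∑ i, c i = 0) {K : ℕ} (hK : ∑ i, |c i| < K) (hK2 : 2 ≤ K)
    {θ : ℝ} (h : ∀ N₀ : ℕ, ∃ N : ℕ, N₀ ≤ N ∧ ∀ A : Finset ℕ, A ⊆ Finset.Icc 1 N →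
      OnlyConst c A → (A.card : ℝ) ≤ (N : ℝ) ^ θ) :
    0 ≤ θ ∧ ∀ M : ℕ, 1 ≤ M → ∀ B : Finset ℕ, B ⊆ range M → OnlyConst c B →
      (B.card : ℝ) ≤ ((K * M : ℕ) : ℝ) ^ θ := by
  have hθ : 0 ≤ θ := by
    by_contra hneg
    obtain ⟨N, hN, hA⟩ := h 2
    have h1 := hA {1} (by simp; omega) (fun x hx _ i j => by
      rw [Finset.mem_singleton.mp (hx i), Finset.mem_singleton.mp (hx j)])
    have h2 : (N : ℝ) ^ θ < 1 :=
      Real.rpow_lt_one_of_one_lt_of_neg (by exact_mod_cast hN) (not_le.mp hneg)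
    simp at h1
    linarith
  refine ⟨hθ, fun M hM B hB hconst => ?_⟩
  by_contra hcon
  push Not at hcon
  set q := K * M with hq
  have hq2 : 2 ≤ q := by nlinarith
  have hBq : ∀ b ∈ B, b < q := by
    intro b hb
    have := Finset.mem_range.mp (hB hb)
    nlinarith
  have hq0 : (0 : ℝ) < q := by exact_mod_cast (by omega : 0 < q)
  have hρ0 : 0 < (q : ℝ) ^ θ := Real.rpow_pos_of_pos hq0 θ
  have hρ : 1 < (B.card : ℝ) / (q : ℝ) ^ θ := (one_lt_div hρ0).mpr hcon
  obtain ⟨k0, hk0⟩ := pow_unbounded_of_one_lt ((q : ℝ) ^ θ) hρ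
  obtain ⟨N, hN, hA⟩ := h (q ^ k0)
  have hN0 : N ≠ 0 := by
    have : 0 < q ^ k0 := pow_pos (by omega) k0
    omega
  set k := Nat.log q N with hk
  have h1 : q ^ k ≤ N := Nat.pow_log_le_self q hN0
  have h2 : N < q ^ (k + 1) := Nat.lt_pow_succ_log_self (by omega) N
  have h3 : k0 ≤ k := Nat.le_log_of_pow_le (by omega) hN
  have h4 := hA ((digitSet B q k).image (· + 1)) (by
    intro a ha
    simp only [mem_image] at ha
    obtain ⟨b, hb, rfl⟩ := ha
    have := digitSet_lt hBq k b hb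
    rw [Finset.mem_Icc]
    omega) (by
    intro x hxA hsum
    have h3 : ∀ i, ∃ b ∈ digitSet B q k, x i = b + 1 := by
      intro i
      have := hxA i
      simp only [mem_image] at this
      obtain ⟨b, hb, h⟩ := this
      exact ⟨b, hb, h.symm⟩
    choose y hy1 hy2 using h3
    have h4 : ∑ i, c i * (y i : ℤ) = 0 := by
      have : ∑ i, c i * (x i : ℤ) = ∑ i, c i * (y i : ℤ) + ∑ i, c i := by
        rw [← Finset.sum_add_distrib]
        refine Finset.sum_congr rfl (fun i _ => ?_)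
        rw [hy2 i]
        push_cast
        ring
      linarith
    intro i j
    rw [hy2 i, hy2 j, digitSet_onlyConst hK hM hB hconst k y hy1 h4 i j])
  rw [Finset.card_image_of_injective _ (add_left_injective 1), digitSet_card hBq] at h4
  have h5 : (N : ℝ) ^ θ ≤ ((q : ℝ) ^ θ) ^ (k + 1) := by
    rw [← Real.rpow_mul_natCast hq0.le, mul_comm, Real.rpow_natCast_mul hq0.le]
    exact Real.rpow_le_rpow (by positivity) (by exact_mod_cast h2.le) hθ
  have h6 : ((B.card : ℝ) / (q : ℝ) ^ θ) ^ k ≤ (q : ℝ) ^ θ := by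
    rw [div_pow, div_le_iff₀ (by positivity), ← pow_succ']
    push_cast at h4
    exact h4.trans h5
  have h7 := pow_le_pow_right₀ hρ.le h3
  linarith

end Pool.Agent.MP_7119ff_nt
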