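import Mathlib

set_option autoImplicit false

namespace Pool.Agent.MP_7119ff_nt

open Finset

variable {ι : Type} [Fintype ι]

/-- The avoidability statement. -/
def Avoid (c : ι → ℤ) : Prop :=
  ∀ δ : ℝ, 0 < δ → ∃ N₀ : ℕ, ∀ N : ℕ, N₀ ≤ N →
    ∃ A : Finset ℕ, A ⊆ Finset.Icc 1 N ∧ (N : ℝ) ^ (1 - δ) ≤ (A.card : ℝ) ∧
      ∀ x : ι → ℕ, Function.Injective x → (∀ i, x i ∈ A) → ∑ i, c i * (x i : ℤ) ≠ 0

lemma avoid_of_nat (c : ι → ℤ)
    (h : ∀ D : ℕ, ∃ Q : ℕ, ∀ N : ℕ, 1 ≤ N → ∃ A : Finset ℕ, A ⊆ Finset.Icc 1 N ∧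
      N ^ D ≤ Q * A.card ^ (D + 1) ∧
      ∀ x : ι → ℕ, Function.Injective x → (∀ i, x i ∈ A) → ∑ i, c i * (x i : ℤ) ≠ 0) :
    Avoid c := by
  intro δ hδ
  obtain ⟨D, hD⟩ := exists_nat_ge (2 / δ)
  obtain ⟨Q, hQ⟩ := h D
  refine ⟨max Q 1, fun N hN => ?_⟩
  have hN1 : 1 ≤ N := le_trans (le_max_right _ _) hN
  have hNQ : Q ≤ N := le_trans (le_max_left _ _) hN
  obtain ⟨A, hA, hcard, hs⟩ := hQ N hN1
  refine ⟨A, hA, ?_, hs⟩
  have hNr : (1 : ℝ) ≤ N := by exact_mod_cast hN1
  have hN0 : (0 : ℝ) < N := by linarith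
  apply le_of_pow_le_pow_left₀ (n := D + 1) (by omega) (by positivity)
  apply le_of_mul_le_mul_left _ hN0
  have h1 : (N : ℝ) ^ D ≤ N * (A.card : ℝ) ^ (D + 1) := by
    exact_mod_cast hcard.trans (Nat.mul_le_mul_right _ hNQ)
  refine le_trans ?_ h1
  have h2 : (N : ℝ) * ((N : ℝ) ^ (1 - δ)) ^ (D + 1)
      = (N : ℝ) ^ ((1 - δ) * ((D + 1 : ℕ) : ℝ) + 1) := by
    rw [Real.rpow_add_one hN0.ne', Real.rpow_mul hN0.le, Real.rpow_natCast, mul_comm]
  rw [h2, ← Real.rpow_natCast]
  apply Real.rpow_le_rpow_of_exponent_le hNr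
  rw [div_le_iff₀ hδ] at hD
  push_cast
  nlinarith

/-- Equations that are not translation invariant are avoidable. -/
lemma avoid_of_sum_ne (c : ι → ℤ) (hs : ∑ i, c i ≠ 0) : Avoid c := by
  apply avoid_of_nat
  intro D
  set q : ℕ := (∑ i, c i).natAbs + 1 with hq
  have hq0 : 0 < q := by omega
  refine ⟨q ^ (D + 1), fun N hN => ?_⟩
  refine ⟨(range ((N - 1) / q + 1)).image (fun j => q * j + 1), ?_, ?_, ?_⟩
  · intro a ha
    simp only [mem_image, mem_range] at ha
    obtain ⟨j, hj, rfl⟩ := ha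
    have h1 : j ≤ (N - 1) / q := by omega
    have h2 : q * j ≤ N - 1 := (Nat.mul_le_mul_left q h1).trans (Nat.mul_div_le _ _)
    rw [Finset.mem_Icc]
    omega
  · rw [Finset.card_image_of_injective _ (fun a b h => by
      simp only [add_left_inj] at h
      exact Nat.eq_of_mul_eq_mul_left hq0 h), Finset.card_range, ← mul_pow]
    have h1 : N ≤ q * ((N - 1) / q + 1) := by
      have := Nat.lt_mul_div_succ (N - 1) hq0
      omega
    calc N ^ D ≤ N ^ (D + 1) := Nat.pow_le_pow_right hN (by omega)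
      _ ≤ _ := Nat.pow_le_pow_left h1 _
  · intro x _ hx h
    have h1 : ∀ i, ∃ j : ℕ, x i = q * j + 1 := by
      intro i
      have := hx i
      simp only [mem_image, mem_range] at this
      obtain ⟨j, _, hj⟩ := this
      exact ⟨j, hj.symm⟩
    choose y hy using h1
    have h2 : ∑ i, c i * (x i : ℤ) = q * ∑ i, c i * (y i : ℤ) + ∑ i, c i := by
      rw [Finset.mul_sum, ← Finset.sum_add_distrib]
      refine Finset.sum_congr rfl (fun i _ => ?_)
      rw [hy i]
      push_cast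
      ring
    have h3 : (q : ℤ) ∣ ∑ i, c i := ⟨-∑ i, c i * (y i : ℤ), by linarith⟩
    have h4 := Int.natCast_dvd.mp h3
    have h5 := Nat.le_of_dvd (Int.natAbs_pos.mpr hs) h4
    omega

/-- All solutions inside `B` are constant. -/
def OnlyConst (c : ι → ℤ) (B : Finset ℕ) : Prop :=
  ∀ x : ι → ℕ, (∀ i, x i ∈ B) → ∑ i, c i * (x i : ℤ) = 0 → ∀ i j, x i = x j

/-- Numbers with `k` digits in base `q`, all digits in `B`. -/
def digitSet (B : Finset ℕ) (q : ℕ) : ℕ → Finset ℕ
  | 0 => {0}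
  | k + 1 => (B ×ˢ digitSet B q k).image (fun z => z.1 + q * z.2)

lemma digitSet_lt {B : Finset ℕ} {q : ℕ} (hB : ∀ b ∈ B, b < q) (k : ℕ) :
    ∀ a ∈ digitSet B q k, a < q ^ k := by
  induction k with
  | zero => simp [digitSet]
  | succ k ih =>
    intro a ha
    simp only [digitSet, mem_image, mem_product] at ha
    obtain ⟨z, ⟨h1, h2⟩, rfl⟩ := ha
    have h3 := hB _ h1
    have h4 := ih _ h2
    have h5 : q * (z.2 + 1) ≤ q * q ^ k := Nat.mul_le_mul_left q h4
    rw [pow_succ']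
    nlinarith

lemma digitSet_card {B : Finset ℕ} {q : ℕ} (hB : ∀ b ∈ B, b < q) (k : ℕ) :
    (digitSet B q k).card = B.card ^ k := by
  induction k with
  | zero => simp [digitSet]
  | succ k ih =>
    rw [digitSet, Finset.card_image_of_injOn, Finset.card_product, ih, pow_succ']
    intro z hz w hw h
    simp only [coe_product, Set.mem_prod, mem_coe] at hz hw
    have h1 := hB _ hz.1
    have h2 := hB _ hw.1
    have hq : 0 < q := by omega
    simp only at h
    have h3 := congrArg (· % q) h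
    have h4 := congrArg (· / q) h
    simp only [Nat.add_mul_mod_self_left, Nat.mod_eq_of_lt h1, Nat.mod_eq_of_lt h2] at h3
    simp only [Nat.add_mul_div_left _ _ hq, Nat.div_eq_of_lt h1, Nat.div_eq_of_lt h2,
      zero_add] at h4
    exact Prod.ext h3 h4

lemma digitSet_onlyConst {c : ι → ℤ} {B : Finset ℕ} {K M : ℕ} (hK : ∑ i, |c i| < K)
    (hM : 1 ≤ M) (hB : B ⊆ range M) (h : OnlyConst c B) (k : ℕ) :
    OnlyConst c (digitSet B (K * M) k) := by
  induction k with
  | zero =>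
    intro x hx _ i j
    have h1 := hx i
    have h2 := hx j
    simp only [digitSet, mem_singleton] at h1 h2
    rw [h1, h2]
  | succ k ih =>
    intro x hx hs
    have h1 : ∀ i, ∃ z : ℕ × ℕ, z.1 ∈ B ∧ z.2 ∈ digitSet B (K * M) k ∧
        x i = z.1 + K * M * z.2 := by
      intro i
      have := hx i
      simp only [digitSet, mem_image, mem_product] at this
      obtain ⟨z, ⟨h1, h2⟩, h3⟩ := this
      exact ⟨z, h1, h2, h3.symm⟩
    choose z hz1 hz2 hz3 using h1
    have h2 : ∑ i, c i * (x i : ℤ)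
        = ∑ i, c i * ((z i).1 : ℤ) + (K * M : ℕ) * ∑ i, c i * ((z i).2 : ℤ) := by
      rw [Finset.mul_sum, ← Finset.sum_add_distrib]
      refine Finset.sum_congr rfl (fun i _ => ?_)
      rw [hz3 i]
      push_cast
      ring
    have h3 : |∑ i, c i * ((z i).1 : ℤ)| < (K * M : ℕ) := by
      calc |∑ i, c i * ((z i).1 : ℤ)| ≤ ∑ i, |c i * ((z i).1 : ℤ)| := Finset.abs_sum_le_sum_abs _ _
        _ ≤ ∑ i, |c i| * M := by
          refine Finset.sum_le_sum (fun i _ => ?_)
          rw [abs_mul]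
          apply mul_le_mul_of_nonneg_left _ (abs_nonneg _)
          rw [abs_of_nonneg (by positivity)]
          have := Finset.mem_range.mp (hB (hz1 i))
          exact_mod_cast this.le
        _ = (∑ i, |c i|) * M := by rw [Finset.sum_mul]
        _ < (K * M : ℕ) := by
          push_cast
          apply mul_lt_mul_of_pos_right hK
          exact_mod_cast hM
    have h4 : ((K * M : ℕ) : ℤ) ∣ ∑ i, c i * ((z i).1 : ℤ) :=
      ⟨-∑ i, c i * ((z i).2 : ℤ), by linarith⟩
    have h5 : ∑ i, c i * ((z i).1 : ℤ) = 0 := Int.eq_zero_of_abs_lt_dvd h4 h3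
    have h6 : ∑ i, c i * ((z i).2 : ℤ) = 0 := by
      rw [hs, h5, zero_add] at h2
      rcases mul_eq_zero.mp h2.symm with h7 | h7
      · rw [h5, h7] at h3
        simp at h3
      · exact h7
    intro i j
    rw [hz3 i, hz3 j, h (fun i => (z i).1) hz1 h5 i j, ih (fun i => (z i).2) hz2 h6 i j]

/-- An unavoidable invariant equation has non-constant solutions in every polynomially
dense set, at every scale. -/
lemma exists_exponent {c : ι → ℤ} (hs : ∑ i, c i = 0) (hι : ∃ i j : ι, i ≠ j)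
    {K : ℕ} (hK : ∑ i, |c i| < K) (hK2 : 2 ≤ K) (h : ¬ Avoid c) :
    ∃ D : ℕ, ∀ M : ℕ, 1 ≤ M → ∀ B : Finset ℕ, B ⊆ range M → (K * M) ^ D ≤ B.card ^ (D + 1) →
      ¬ OnlyConst c B := by
  by_contra hcon
  push Not at hcon
  apply h
  apply avoid_of_nat
  intro D
  obtain ⟨M, hM, B, hB, hcard, hconst⟩ := hcon D
  set q := K * M with hq
  have hq2 : 2 ≤ q := by nlinarith
  have hBq : ∀ b ∈ B, b < q := by
    intro b hb
    have := Finset.mem_range.mp (hB hb)
    nlinarith
  refine ⟨q ^ D, fun N hN => ?_⟩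
  set k := Nat.log q N with hk
  have h1 : q ^ k ≤ N := Nat.pow_log_le_self q (by omega)
  have h2 : N < q ^ (k + 1) := Nat.lt_pow_succ_log_self (by omega) N
  refine ⟨(digitSet B q k).image (· + 1), ?_, ?_, ?_⟩
  · intro a ha
    simp only [mem_image] at ha
    obtain ⟨b, hb, rfl⟩ := ha
    have := digitSet_lt hBq k b hb
    rw [Finset.mem_Icc]
    omega
  · rw [Finset.card_image_of_injective _ (add_left_injective 1), digitSet_card hBq]
    calc N ^ D ≤ (q ^ (k + 1)) ^ D := Nat.pow_le_pow_left h2.le _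
      _ = q ^ D * (q ^ D) ^ k := by ring
      _ ≤ q ^ D * (B.card ^ (D + 1)) ^ k :=
        Nat.mul_le_mul_left _ (Nat.pow_le_pow_left hcard _)
      _ = _ := by ring
  · intro x hx hxA hsum
    have h3 : ∀ i, ∃ b ∈ digitSet B q k, x i = b + 1 := by
      intro i
      have := hxA i
      simp only [mem_image] at this
      obtain ⟨b, hb, h⟩ := this
      exact ⟨b, hb, h.symm⟩
    choose y hy1 hy2 using h3
    have h4 : ∑ i, c i * (y i : ℤ) = 0 := by
      have : ∑ i, c i * (x i : ℤ) = ∑ i, c i * (y i : ℤ) + ∑ i, c i := by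
        rw [← Finset.sum_add_distrib]
        refine Finset.sum_congr rfl (fun i _ => ?_)
        rw [hy2 i]
        push_cast
        ring
      linarith
    obtain ⟨i, j, hij⟩ := hι
    apply hij
    apply hx
    rw [hy2 i, hy2 j, digitSet_onlyConst hK hM hB hconst k y hy1 h4 i j]

end Pool.Agent.MP_7119ff_nt
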