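import Pool.Agent.MP_7119ff_nt.Chain
import Pool.Agent.MP_7119ff_nt.Order

/-! Counting solutions in distinct integers. -/

set_option autoImplicit false

namespace Pool.Agent.MP_7119ff_nt

open Finset

theorem cast_ne_zero_of_lt {p : ℕ} {z : ℤ} (hz : z ≠ 0) (hp : |z| < p) : (z : ZMod p) ≠ 0 := by
  intro h
  exact hz (Int.eq_zero_of_abs_lt_dvd ((ZMod.intCast_zmod_eq_zero_iff_dvd z p).mp h) hp)

theorem sum_windows {p : ℕ} [Fact p.Prime] (A : Finset (ZMod p)) (M : ℕ) :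
    ∑ q : ZMod p × ZMod p, ((range M).filter (fun j : ℕ => q.1 + q.2 * j ∈ A)).card =
      p * (M * A.card) := by
  have h1 : ∀ s : ZMod p, ∑ u : ZMod p, (if u + s ∈ A then 1 else 0) = A.card := by
    intro s
    rw [← Finset.card_filter]
    exact Finset.card_equiv (Equiv.addRight s) (by simp)
  simp only [Finset.card_filter]
  rw [Finset.sum_comm, Finset.sum_congr rfl (g := fun _ => p * A.card)]
  · rw [Finset.sum_const, Finset.card_range, smul_eq_mul]
    ring
  · intro j _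
    rw [Fintype.sum_prod_type_right]
    simp only [h1]
    rw [Finset.sum_const, Finset.card_univ, ZMod.card, smul_eq_mul]

variable {ι : Type} [Fintype ι] [DecidableEq ι]

/-- Many triples of a window and a solution in it, with a common ordering. -/
theorem exists_family (c : ι → ℤ) (hc : ∀ i, c i ≠ 0) (hs : ∑ i, c i = 0) (n : ℕ)
    (hn : Fintype.card ι = n + 3) {p : ℕ} [Fact p.Prime] (A : Finset (ZMod p)) (M r Z : ℕ)
    (hZ : 0 < Z) (hr : ∀ B ⊆ range M, OnlyConst c B → B.card ≤ r) (h1 : 2 * p * r ≤ M * A.card)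
    (h2 : 2 * (n + 3) * ((n + 3) ^ (n + 3) * Z) ≤ p * (M * A.card)) :
    ∃ (e : ℕ → ι) (W : Finset (Σ _ : ZMod p × ZMod p, ι → ℕ)),
      (range (n + 3)).image e = Finset.univ ∧ Z ≤ W.card ∧
      (∀ ω ∈ W, (∀ i, ω.2 i < M ∧ ω.1.1 + ω.1.2 * (ω.2 i : ZMod p) ∈ A) ∧
        ∑ i, c i * (ω.2 i : ℤ) = 0 ∧
        ∀ k, 1 ≤ k → k ≤ n + 1 →
          ∑ j ∈ range k, c (e j) * ((ω.2 (e k) : ℤ) - ω.2 (e j)) ≠ 0) ∧
      ∀ ω ∈ W, ∀ ω' ∈ W, ω.1 = ω'.1 → ∀ i, ω.2 i = ω'.2 i → ω = ω' := by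
  classical
  have hg := fun q : ZMod p × ZMod p => greedy c r _
    ((range M).filter (fun j : ℕ => q.1 + q.2 * j ∈ A)) le_rfl
    (fun B' hB' => hr B' (hB'.trans (Finset.filter_subset _ _)))
  choose S hS1 hS2 hS3 using hg
  have ho : ∀ t : ι → ℕ, ∃ e : ℕ → ι, (∃ i j, t i ≠ t j) →
      (range (n + 3)).image e = Finset.univ ∧
      ∀ k, 1 ≤ k → k ≤ n + 1 → ∑ j ∈ range k, c (e j) * ((t (e k) : ℤ) - t (e j)) ≠ 0 := by
    intro t
    by_cases ht : ∃ i j, t i ≠ t j
    · obtain ⟨i, j, hij⟩ := ht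
      obtain ⟨e, he⟩ := exists_ord_univ c (fun i => (t i : ℤ)) hc hs n hn
        ⟨i, j, by exact_mod_cast hij⟩
      exact ⟨e, fun _ => he⟩
    · have : Nonempty ι := Fintype.card_pos_iff.mp (by omega)
      exact ⟨fun _ => Classical.arbitrary ι, fun h => absurd h ht⟩
  choose o ho using ho
  set W0 := (Finset.univ : Finset (ZMod p × ZMod p)).sigma S with hW0
  have h3 : p * (M * A.card) ≤ p * p * r + (n + 3) * W0.card := by
    rw [← sum_windows, hW0, Finset.card_sigma, Finset.mul_sum]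
    refine (Finset.sum_le_sum (fun q _ => hS3 q)).trans (le_of_eq ?_)
    rw [Finset.sum_add_distrib, Finset.sum_const, Finset.card_univ, Fintype.card_prod, ZMod.card,
      smul_eq_mul, hn]
  have h4 : (n + 3) ^ (n + 3) * Z ≤ W0.card := by
    have h5 : p * (2 * p * r) ≤ p * (M * A.card) := Nat.mul_le_mul_left _ h1
    have h6 : p * (2 * p * r) = 2 * (p * p * r) := by ring
    have h7 : 2 * (n + 3) * ((n + 3) ^ (n + 3) * Z) ≤ 2 * (n + 3) * W0.card := by
      rw [mul_assoc 2 (n + 3) W0.card]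
      omega
    exact Nat.le_of_mul_le_mul_left h7 (by omega)
  have : Nonempty ι := Fintype.card_pos_iff.mp (by omega)
  obtain ⟨E, _, hE⟩ := Finset.exists_le_card_fiber_of_mul_le_card_of_maps_to
    (s := W0) (t := Finset.univ) (f := fun ω => fun i : Fin (n + 3) => o ω.2 i) (n := Z)
    (fun _ _ => Finset.mem_univ _) Finset.univ_nonempty
    (by rw [Finset.card_univ, Fintype.card_fun, hn, Fintype.card_fin]; exact h4)
  obtain ⟨ω0, hω0⟩ := Finset.card_pos.mp (lt_of_lt_of_le hZ hE)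
  obtain ⟨a1, a2⟩ := Finset.mem_filter.mp hω0
  refine ⟨o ω0.2, _, (ho _ (hS1 _ _ (Finset.mem_sigma.mp a1).2).2.2).1, hE,
    fun ω hω => ?_, fun ω hω ω' hω' hq i hi => ?_⟩
  · obtain ⟨b1, b2⟩ := Finset.mem_filter.mp hω
    obtain ⟨b3, b4, b5⟩ := hS1 _ _ (Finset.mem_sigma.mp b1).2
    have hoo : ∀ j, j < n + 3 → o ω0.2 j = o ω.2 j := fun j hj =>
      congrFun (a2.trans b2.symm) ⟨j, hj⟩
    refine ⟨fun i => ?_, b4, fun k hk1 hk2 => ?_⟩
    · have := Finset.mem_filter.mp (b3 i)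
      exact ⟨Finset.mem_range.mp this.1, this.2⟩
    · rw [Finset.sum_congr rfl (g := fun j => c (o ω.2 j) * ((ω.2 (o ω.2 k) : ℤ) - ω.2 (o ω.2 j)))]
      · exact (ho _ b5).2 k hk1 hk2
      · intro j hj
        have := Finset.mem_range.mp hj
        rw [hoo j (by omega), hoo k (by omega)]
  · obtain ⟨q, t⟩ := ω
    obtain ⟨q', t'⟩ := ω'
    have hq' : q = q' := hq
    subst hq'
    have := hS2 q t (Finset.mem_sigma.mp (Finset.mem_filter.mp hω).1).2 t'
      (Finset.mem_sigma.mp (Finset.mem_filter.mp hω').1).2 i hi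
    rw [this]

/-- The finite form of the count. -/
theorem core (c : ι → ℤ) (hc : ∀ i, c i ≠ 0) (hs : ∑ i, c i = 0) (n : ℕ)
    (hn : Fintype.card ι = n + 3) (K : ℕ) (hK : ∑ i, |c i| < K) (N M r G : ℕ) (hM : 1 ≤ M)
    (hMN : M ≤ N) (A : Finset ℕ) (hA : A ⊆ Icc 1 N)
    (hr : ∀ B ⊆ range M, OnlyConst c B → B.card ≤ r) (h1 : 4 * K * N * r ≤ M * A.card)
    (h2 : 2 * (n + 3) * (n + 3) ^ (n + 3) * (n + 4) * (3 * K) * M * (G + (2 * n + 4)) ≤ A.card) :
    N * G ^ (n + 1) ≤ ((Fintype.piFinset (fun _ : ι => A)).filter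
      (fun x : ι → ℕ => Function.Injective x ∧ ∑ i, c i * (x i : ℤ) = 0)).card := by
  classical
  have hc0 : (0 : ℤ) ≤ ∑ i, |c i| := Finset.sum_nonneg (fun i _ => abs_nonneg _)
  have hK1 : 1 ≤ K := by omega
  have hKN : 0 < K * N := Nat.mul_pos hK1 (by omega)
  obtain ⟨p, hp, hp1, hp2⟩ := Nat.exists_prime_lt_and_le_two_mul (K * N) (by omega)
  have : Fact p.Prime := ⟨hp⟩
  have hNp : N < p := lt_of_le_of_lt (Nat.le_mul_of_pos_left N hK1) hp1
  have hAp : ∀ a ∈ A, 1 ≤ a ∧ a ≤ N := fun a ha => Finset.mem_Icc.mp (hA ha)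
  set A' : Finset (ZMod p) := A.image (fun a : ℕ => (a : ZMod p)) with hA'
  have hval : ∀ z ∈ A', z.val ∈ A := by
    intro z hz
    obtain ⟨a, ha, rfl⟩ := Finset.mem_image.mp hz
    rw [ZMod.val_natCast_of_lt (by have := hAp a ha; omega)]
    exact ha
  have hA'c : A'.card = A.card := by
    refine Finset.card_image_of_injOn (fun a ha b hb h => ?_)
    have := congrArg ZMod.val h
    rwa [ZMod.val_natCast_of_lt (by have := hAp a ha; omega),
      ZMod.val_natCast_of_lt (by have := hAp b hb; omega)] at this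
  have h0 : (0 : ZMod p) ∉ A' := by
    intro h
    have := hAp _ (hval _ h)
    rw [ZMod.val_zero] at this
    omega
  have hbound : ∀ (L : ℕ) (d : ι → ℤ), (∀ i, |d i| ≤ L) → ∑ i, |c i * d i| ≤ K * L := by
    intro L d hd
    calc ∑ i, |c i * d i| ≤ ∑ i, |c i| * L := Finset.sum_le_sum (fun i _ => by
          rw [abs_mul]
          exact mul_le_mul_of_nonneg_left (hd i) (abs_nonneg _))
      _ = (∑ i, |c i|) * L := by rw [Finset.sum_mul]
      _ ≤ K * L := mul_le_mul_of_nonneg_right hK.le (by positivity)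
  have hm : 0 < 3 * K * M * M := by positivity
  obtain ⟨e, W, he, hWc, hW1, hW2⟩ := exists_family c hc hs n hn A' M r
    ((n + 4) * p * (3 * K * M * M * (G + (2 * n + 4)))) (by have := hp.pos; positivity) hr
    (by
      rw [hA'c]
      refine le_trans (Nat.mul_le_mul_right _ ?_) h1
      have : 4 * K * N = 2 * (2 * (K * N)) := by ring
      omega)
    (by
      rw [hA'c]
      exact le_trans (le_of_eq (by ring)) (Nat.mul_le_mul_left p (Nat.mul_le_mul_left M h2)))
  have hinj : Set.InjOn e (range (n + 3) : Finset ℕ) :=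
    Finset.card_image_iff.mp (by rw [he, Finset.card_univ, hn, Finset.card_range])
  have hsum : ∀ (β : Type) [AddCommMonoid β] (g : ι → β),
      ∑ j ∈ range (n + 3), g (e j) = ∑ i, g i := by
    intro β _ g
    rw [← he, Finset.sum_image hinj]
  obtain ⟨T, hTc, hT⟩ := chain n (fun j => (c (e j) : ZMod p))
    (fun j _ => cast_ne_zero_of_lt (hc _) (by
      have h3 : |c (e j)| ≤ ∑ i, |c i| :=
        Finset.single_le_sum (f := fun i => |c i|) (fun i _ => abs_nonneg _) (Finset.mem_univ _)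
      have h4 : K ≤ K * N := Nat.le_mul_of_pos_right K (by omega)
      omega))
    A' h0 W (fun ω j => ω.1.1 + ω.1.2 * (ω.2 (e j) : ZMod p))
    (fun ω hω j _ => ((hW1 ω hω).1 _).2)
    (fun ω hω => by
      have h3 : ((∑ i, c i : ℤ) : ZMod p) = 0 := by rw [hs, Int.cast_zero]
      have h4 : ((∑ i, c i * (ω.2 i : ℤ) : ℤ) : ZMod p) = 0 := by
        rw [(hW1 ω hω).2.1, Int.cast_zero]
      push_cast at h3 h4
      unfold ps
      rw [hsum _ (fun i => (c i : ZMod p) * (ω.1.1 + ω.1.2 * (ω.2 i : ZMod p)))]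
      have h5 : ∑ i, (c i : ZMod p) * (ω.1.1 + ω.1.2 * (ω.2 i : ZMod p)) =
          ω.1.1 * ∑ i, (c i : ZMod p) + ω.1.2 * ∑ i, (c i : ZMod p) * (ω.2 i : ZMod p) := by
        rw [Finset.mul_sum, Finset.mul_sum, ← Finset.sum_add_distrib]
        exact Finset.sum_congr rfl (fun i _ => by ring)
      rw [h5, h3, h4]
      ring)
    (3 * K * M * M) G hm
    (fun k hk1 hk2 s z => by
      set D : (ι → ℕ) → ℤ := fun t => ∑ j ∈ range k, c (e j) * ((t (e k) : ℤ) - t (e j)) with hD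
      have hDb : ∀ ω ∈ W, |D ω.2| ≤ K * M := by
        intro ω hω
        refine (Finset.abs_sum_le_sum_abs _ _).trans (le_trans ?_
          (hbound M (fun i => (ω.2 (e k) : ℤ) - ω.2 i) (fun i => ?_)))
        · rw [← hsum]
          exact Finset.sum_le_sum_of_subset_of_nonneg (Finset.range_mono (by omega))
            (fun _ _ _ => abs_nonneg _)
        · have b1 := ((hW1 ω hω).1 i).1
          have b2 := ((hW1 ω hω).1 (e k)).1
          rw [abs_le]
          constructor <;> omega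
      have hDe : ∀ ω : (Σ _ : ZMod p × ZMod p, ι → ℕ),
          ω.1.2 * (D ω.2 : ZMod p) = (∑ j ∈ range k, (c (e j) : ZMod p)) *
            (ω.1.1 + ω.1.2 * (ω.2 (e k) : ZMod p)) -
            ps (fun j => (c (e j) : ZMod p))
              (fun j => ω.1.1 + ω.1.2 * (ω.2 (e j) : ZMod p)) k := by
        intro ω
        simp only [hD, ps]
        push_cast
        rw [Finset.mul_sum, Finset.sum_mul, ← Finset.sum_sub_distrib]
        exact Finset.sum_congr rfl (fun i _ => by ring)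
      refine le_trans (Finset.card_le_card_of_injOn
        (t := Finset.Icc (-(K * M : ℤ)) (K * M) ×ˢ range M) (fun ω => (D ω.2, ω.2 (e k)))
        (fun ω hω => ?_) (fun ω hω ω' hω' h => ?_)) ?_
      · have hω1 := (Finset.mem_filter.mp hω).1
        rw [Finset.mem_coe, Finset.mem_product, Finset.mem_Icc, Finset.mem_range]
        exact ⟨abs_le.mp (hDb ω hω1), ((hW1 ω hω1).1 _).1⟩
      · obtain ⟨a1, a2, a3⟩ := Finset.mem_filter.mp hω
        obtain ⟨b1, b2, b3⟩ := Finset.mem_filter.mp hω'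
        obtain ⟨e1, e2⟩ := Prod.mk.inj h
        have hne : (D ω.2 : ZMod p) ≠ 0 := cast_ne_zero_of_lt ((hW1 ω a1).2.2 k hk1 hk2) (by
          have h3 := hDb ω a1
          have h4 : K * M ≤ K * N := Nat.mul_le_mul_left K hMN
          have h5 : ((K * M : ℕ) : ℤ) < p := by exact_mod_cast lt_of_le_of_lt h4 hp1
          push_cast at h5
          exact lt_of_le_of_lt h3 h5)
        have c1 := hDe ω
        have c2 := hDe ω'
        rw [a2, a3] at c1
        rw [b2, b3, ← e1, ← c1] at c2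
        have hv : ω'.1.2 = ω.1.2 := mul_right_cancel₀ hne c2
        have hu : ω.1.1 = ω'.1.1 := by
          rw [hv, ← e2, ← a3] at b3
          exact (add_right_cancel b3).symm
        exact hW2 ω a1 ω' b1 (Prod.ext hu hv.symm) _ e2
      · rw [Finset.card_product, Int.card_Icc, Finset.card_range]
        refine Nat.mul_le_mul_right _ ?_
        have h3 : 0 < K * M := by positivity
        have h4 : (K : ℤ) * M + 1 - -(K * M) = ((2 * (K * M) + 1 : ℕ) : ℤ) := by
          push_cast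
          ring
        rw [h4, Int.toNat_natCast, mul_assoc]
        omega)
    (by rw [ZMod.card]; exact hWc)
  have hinv : ∀ i, ∃ j, j < n + 3 ∧ e j = i := by
    intro i
    obtain ⟨j, hj, h⟩ := Finset.mem_image.mp (he ▸ Finset.mem_univ i)
    exact ⟨j, Finset.mem_range.mp hj, h⟩
  choose g hg1 hg2 using hinv
  have hge : ∀ j, j < n + 3 → g (e j) = j := fun j hj =>
    hinj (Finset.mem_coe.mpr (Finset.mem_range.mpr (hg1 _)))
      (Finset.mem_coe.mpr (Finset.mem_range.mpr hj)) (hg2 _)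
  rw [ZMod.card] at hTc
  refine (Nat.mul_le_mul_right _ hNp.le).trans (hTc.trans ?_)
  refine Finset.card_le_card_of_injOn (fun y i => (y (g i)).val) (fun y hy => ?_)
    (fun y hy y' hy' h => ?_)
  · obtain ⟨t1, _, t3, t4⟩ := hT y hy
    have hyA : ∀ i, (y (g i)).val ∈ A := fun i => hval _ (t1 _ (hg1 i))
    rw [Finset.mem_coe, Finset.mem_filter, Fintype.mem_piFinset]
    refine ⟨hyA, fun i j hij => ?_, ?_⟩
    · rw [← hg2 i, ← hg2 j, t3 _ (hg1 i) _ (hg1 j) (ZMod.val_injective p hij)]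
    · by_contra hne
      refine cast_ne_zero_of_lt (p := p) hne ?_ ?_
      · have h3 := (Finset.abs_sum_le_sum_abs _ _).trans
          (hbound N (fun i => ((y (g i)).val : ℤ)) (fun i => by
            rw [abs_of_nonneg (by positivity)]
            exact_mod_cast (hAp _ (hyA i)).2))
        have h5 : ((K * N : ℕ) : ℤ) < p := by exact_mod_cast hp1
        push_cast at h5
        exact lt_of_le_of_lt h3 h5
      · push_cast
        rw [← hsum, ← t4]
        refine Finset.sum_congr rfl (fun j hj => ?_)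
        rw [hge j (Finset.mem_range.mp hj), ZMod.natCast_zmod_val]
  · funext j
    by_cases hj : j < n + 3
    · have := congrFun h (e j)
      simp only [hge j hj] at this
      exact ZMod.val_injective p this
    · rw [(hT y hy).2.1 j (by omega), (hT y' hy').2.1 j (by omega)]

/-- The count for invariant equations in at least three variables. -/
theorem distinct_count (c : ι → ℤ) (hc : ∀ i, c i ≠ 0) (hs : ∑ i, c i = 0) (n : ℕ)
    (hn : Fintype.card ι = n + 3) (δ : ℝ) (hδ : 0 < δ)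
    (h : ∀ N₀ : ℕ, ∃ N : ℕ, N₀ ≤ N ∧ ∀ A : Finset ℕ, A ⊆ Finset.Icc 1 N →
      OnlyConst c A → (A.card : ℝ) ≤ (N : ℝ) ^ (1 - δ)) :
    ∃ γ K : ℝ, 0 < γ ∧ 0 < K ∧ ∀ N : ℕ, 1 ≤ N → ∀ A : Finset ℕ, A ⊆ Finset.Icc 1 N →
      K * (N : ℝ) ^ (1 / (1 + δ)) ≤ A.card →
      γ * (((A.card : ℝ) / N) ^ (1 + 1 / δ)) ^ (n + 1) * (N : ℝ) ^ (n + 2) ≤
        (((Fintype.piFinset (fun _ : ι => A)).filter
          (fun x : ι → ℕ => Function.Injective x ∧ ∑ i, c i * (x i : ℤ) = 0)).card : ℝ) := by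
  obtain ⟨K, hKdef⟩ : ∃ K : ℕ, K = (∑ i, |c i|).natAbs + 2 := ⟨_, rfl⟩
  have hK : ∑ i, |c i| < K := by omega
  have hK2 : 2 ≤ K := by omega
  obtain ⟨hθ, hall⟩ := all_scales hs hK hK2 h
  obtain ⟨Q, hQ⟩ : ∃ Q : ℕ, Q = 2 * (n + 3) * (n + 3) ^ (n + 3) * (n + 4) * (3 * K) := ⟨_, rfl⟩
  have hQ1 : 1 ≤ Q := by
    rw [hQ]
    exact Nat.succ_le_of_lt (by positivity)
  have hKr : (2 : ℝ) ≤ K := by exact_mod_cast hK2
  have hQr : (1 : ℝ) ≤ Q := by exact_mod_cast hQ1
  have hd : 0 < 1 / δ := by positivity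
  set L : ℝ := (4 * (K : ℝ) ^ 2) ^ (1 / δ) with hL
  have hL1 : 1 ≤ L := Real.one_le_rpow (by nlinarith) hd.le
  have hn0 : (0 : ℝ) ≤ n := by positivity
  set K' : ℝ := 4 * Q * L * (2 * n + 5) with hK'
  have hQL : 1 ≤ (Q : ℝ) * L := by nlinarith
  have hK'1 : 1 ≤ K' := by nlinarith
  refine ⟨(1 / (4 * Q * L)) ^ (n + 1), K', by positivity, by positivity, fun N hN A hA hbig => ?_⟩
  have hN0 : (0 : ℝ) < N := by exact_mod_cast hN
  have hAN : A.card ≤ N := by simpa using Finset.card_le_card hA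
  set α : ℝ := (A.card : ℝ) with hα
  have hNp : 0 < (N : ℝ) ^ (1 / (1 + δ)) := Real.rpow_pos_of_pos hN0 _
  have hα0 : 0 < α := lt_of_lt_of_le (by positivity) hbig
  set ε : ℝ := α / N with hε
  have hε0 : 0 < ε := by positivity
  have hε1 : ε ≤ 1 := by
    rw [hε, div_le_one hN0, hα]
    exact_mod_cast hAN
  set E : ℝ := ε ^ (1 / δ) with hE
  have hE0 : 0 < E := Real.rpow_pos_of_pos hε0 _
  have hE1 : E ≤ 1 := Real.rpow_le_one hε0.le hε1 hd.le
  have hαE : α * E = N * ε ^ (1 + 1 / δ) := by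
    rw [Real.rpow_add hε0, Real.rpow_one, ← hE, hε]
    field_simp
  have hbig2 : K' ≤ α * E := by
    have h1 : K' * (N : ℝ) ^ (1 / (1 + δ)) / N ≤ ε := by
      rw [hε]
      exact div_le_div_of_nonneg_right hbig hN0.le
    have h2 := Real.rpow_le_rpow (by positivity) h1 (by positivity : (0 : ℝ) ≤ 1 + 1 / δ)
    rw [mul_div_assoc, ← Real.rpow_sub_one hN0.ne', Real.mul_rpow (by positivity) (by positivity),
      ← Real.rpow_mul hN0.le] at h2
    have h3 : (1 / (1 + δ) - 1) * (1 + 1 / δ) = -1 := by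
      field_simp
      ring
    rw [h3, Real.rpow_neg_one] at h2
    have h4 : K' ≤ K' ^ (1 + 1 / δ) := Real.self_le_rpow_of_one_le hK'1 (by linarith)
    rw [hαE]
    calc K' ≤ K' ^ (1 + 1 / δ) := h4
      _ = N * (K' ^ (1 + 1 / δ) * (N : ℝ)⁻¹) := by field_simp
      _ ≤ _ := mul_le_mul_of_nonneg_left h2 hN0.le
  set M : ℕ := ⌈L / E⌉₊ with hM
  have hμ1 : 1 ≤ L / E := by
    rw [le_div_iff₀ hE0]
    linarith
  have hM1 : L / E ≤ M := Nat.le_ceil _
  have hM2 : (M : ℝ) ≤ 2 * (L / E) := by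
    have := Nat.ceil_lt_add_one (a := L / E) (by linarith)
    linarith
  have hMr : (1 : ℝ) ≤ M := hμ1.trans hM1
  have hMn : 1 ≤ M := by exact_mod_cast hMr
  set g : ℕ := A.card / (Q * M) with hg
  have hQM : 0 < Q * M := Nat.mul_pos hQ1 hMn
  have hg1 : Q * M * g ≤ A.card := Nat.mul_div_le _ _
  have hg2 : α < Q * M * (g + 1) := by
    have := Nat.lt_mul_div_succ A.card hQM
    rw [hα]
    exact_mod_cast this
  have hg3 : α * E / (2 * Q * L) ≤ g + 1 := by
    rw [div_le_iff₀ (by positivity)]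
    have h1 : (M : ℝ) * E ≤ 2 * L := by
      have := mul_le_mul_of_nonneg_right hM2 hE0.le
      rwa [mul_assoc, div_mul_cancel₀ _ hE0.ne'] at this
    calc α * E ≤ Q * M * (g + 1) * E := mul_le_mul_of_nonneg_right hg2.le hE0.le
      _ = (g + 1) * Q * (M * E) := by ring
      _ ≤ (g + 1) * Q * (2 * L) := mul_le_mul_of_nonneg_left h1 (by positivity)
      _ = _ := by ring
  have hg4 : 2 * (2 * (n : ℝ) + 5) ≤ α * E / (2 * Q * L) := by
    rw [le_div_iff₀ (by positivity)]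
    refine le_trans (le_of_eq ?_) hbig2
    rw [hK']
    ring
  have hg5 : 2 * n + 5 ≤ g := by
    have : (2 * n + 5 : ℝ) ≤ g := by linarith
    exact_mod_cast this
  obtain ⟨G, hG⟩ : ∃ G, g = G + (2 * n + 4) := ⟨g - (2 * n + 4), by omega⟩
  have hG2 : α * E / (4 * Q * L) ≤ G := by
    have h1 : (g : ℝ) = G + (2 * n + 4) := by exact_mod_cast hG
    have h2 : α * E / (4 * Q * L) = α * E / (2 * Q * L) / 2 := by
      field_simp
      ring
    linarith
  have hMN : M ≤ N := by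
    have h1 : M ≤ Q * M := Nat.le_mul_of_pos_left M hQ1
    have h2 : Q * M ≤ Q * M * g := Nat.le_mul_of_pos_right _ (by omega)
    omega
  have hcore := core c hc hs n hn K hK N M ⌊((K * M : ℕ) : ℝ) ^ (1 - δ)⌋₊ G hMn hMN A hA
    (fun B hB hB' => Nat.le_floor (hall M hMn B hB hB')) (by
      have h1 : ((⌊((K * M : ℕ) : ℝ) ^ (1 - δ)⌋₊ : ℕ) : ℝ) ≤ ((K * M : ℕ) : ℝ) ^ (1 - δ) :=
        Nat.floor_le (by positivity)
      have h2 : 4 * (K : ℝ) ^ 2 / ε ≤ ((K * M : ℕ) : ℝ) ^ δ := by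
        have h3 : L / E = (4 * (K : ℝ) ^ 2 / ε) ^ (1 / δ) := by
          rw [Real.div_rpow (by positivity) hε0.le]
        have h4 : L / E ≤ ((K * M : ℕ) : ℝ) := by
          push_cast
          nlinarith
        have h5 := Real.rpow_le_rpow (by positivity) h4 hδ.le
        rwa [h3, ← Real.rpow_mul (by positivity), one_div_mul_cancel hδ.ne', Real.rpow_one] at h5
      have hKM : (0 : ℝ) < ((K * M : ℕ) : ℝ) := by
        push_cast
        positivity
      have h6 : ((K * M : ℕ) : ℝ) ^ (1 - δ) ≤ K * M / (4 * (K : ℝ) ^ 2 / ε) := by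
        rw [Real.rpow_sub hKM, Real.rpow_one]
        refine le_trans (div_le_div_of_nonneg_left hKM.le (by positivity) h2) (le_of_eq ?_)
        push_cast
        rfl
      have h7 : 4 * (K : ℝ) * N * ((⌊((K * M : ℕ) : ℝ) ^ (1 - δ)⌋₊ : ℕ) : ℝ) ≤ M * α := by
        refine le_trans (mul_le_mul_of_nonneg_left (h1.trans h6) (by positivity)) (le_of_eq ?_)
        rw [hε]
        field_simp
      rw [hα] at h7
      exact_mod_cast h7)
    (by rw [← hQ, ← hG]; exact hg1)
  have hcore' := (Nat.cast_le (α := ℝ)).mpr hcore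
  rw [Nat.cast_mul, Nat.cast_pow] at hcore'
  refine le_trans ?_ hcore'
  refine le_trans (le_of_eq ?_)
    (mul_le_mul_of_nonneg_left (pow_le_pow_left₀ (by positivity) hG2 (n + 1)) hN0.le)
  rw [hαE, div_pow, div_pow, mul_pow]
  field_simp
  ring

omit [DecidableEq ι] in
/-- Equations that are not invariant have large sets without solutions. -/
theorem sum_eq_zero_of_bound (c : ι → ℤ) {δ : ℝ} (hδ : 0 < δ)
    (h : ∀ N₀ : ℕ, ∃ N : ℕ, N₀ ≤ N ∧ ∀ A : Finset ℕ, A ⊆ Finset.Icc 1 N →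
      OnlyConst c A → (A.card : ℝ) ≤ (N : ℝ) ^ (1 - δ)) :
    ∑ i, c i = 0 ∧ ∃ x : ι → ℕ, ∑ i, c i * (x i : ℤ) = 0 ∧ ∃ i j, x i ≠ x j := by
  have key : ∀ q : ℕ, 0 < q → ∃ x : ι → ℕ, (∀ i, ∃ j, x i = q * j + 1) ∧
      ∑ i, c i * (x i : ℤ) = 0 ∧ ∃ i j, x i ≠ x j := by
    intro q hq0
    by_contra hcon
    have ht := (tendsto_rpow_atTop hδ).comp tendsto_natCast_atTop_atTop
    obtain ⟨N₀, hN₀⟩ := Filter.eventually_atTop.mp (ht.eventually_gt_atTop (q : ℝ))
    obtain ⟨N, hN, hA⟩ := h (N₀ + 1)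
    have h1 : (q : ℝ) < (N : ℝ) ^ δ := hN₀ N (by omega)
    have hN0 : (0 : ℝ) < N := by exact_mod_cast (by omega : 0 < N)
    have h2 := hA ((range ((N - 1) / q + 1)).image (fun j => q * j + 1)) (by
      intro a ha
      simp only [mem_image, mem_range] at ha
      obtain ⟨j, hj, rfl⟩ := ha
      have h1 : j ≤ (N - 1) / q := by omega
      have h2 : q * j ≤ N - 1 := (Nat.mul_le_mul_left q h1).trans (Nat.mul_div_le _ _)
      rw [Finset.mem_Icc]
      omega) (by
      intro x hx hs i j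
      by_contra hij
      refine hcon ⟨x, fun i => ?_, hs, i, j, hij⟩
      obtain ⟨j, _, hj⟩ := Finset.mem_image.mp (hx i)
      exact ⟨j, hj.symm⟩)
    rw [Finset.card_image_of_injective _ (fun a b h => by
      simp only [add_left_inj] at h
      exact Nat.eq_of_mul_eq_mul_left hq0 h), Finset.card_range, Real.rpow_sub hN0,
      Real.rpow_one, le_div_iff₀ (by positivity)] at h2
    have h3 : N ≤ q * ((N - 1) / q + 1) := by
      have := Nat.lt_mul_div_succ (N - 1) hq0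
      omega
    have h4 : (N : ℝ) ≤ q * (((N - 1) / q + 1 : ℕ) : ℝ) := by exact_mod_cast h3
    have h5 : (0 : ℝ) < (((N - 1) / q + 1 : ℕ) : ℝ) := by exact_mod_cast Nat.succ_pos _
    nlinarith
  obtain ⟨x, hx1, hx2, hx3⟩ := key ((∑ i, c i).natAbs + 1) (by omega)
  refine ⟨?_, x, hx2, hx3⟩
  choose y hy using hx1
  have h2 : ∑ i, c i * (x i : ℤ) =
      (((∑ i, c i).natAbs + 1 : ℕ) : ℤ) * ∑ i, c i * (y i : ℤ) + ∑ i, c i := by
    rw [Finset.mul_sum, ← Finset.sum_add_distrib]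
    refine Finset.sum_congr rfl (fun i _ => ?_)
    rw [hy i]
    push_cast
    ring
  exact Int.eq_zero_of_abs_lt_dvd (m := (((∑ i, c i).natAbs + 1 : ℕ) : ℤ))
    ⟨-∑ i, c i * (y i : ℤ), by linarith⟩ (by push_cast; exact lt_add_one _)

end Pool.Agent.MP_7119ff_nt
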