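import Mathlib
import Pool.Agent.MP_7119ff_nt.Cross
import Pool.Agent.MP_7119ff_nt.Product

set_option autoImplicit false

namespace Pool.Agent.MP_7119ff_nt

open Finset

variable {ι : Type} [Fintype ι] [DecidableEq ι]

/-- Positions of a descending progression of length `M` that land in `A`. -/
def hits (A : Finset ℕ) (M : ℕ) (p : ℕ × ℕ) : Finset ℕ :=
  (range M).filter (fun j => p.1 - p.2 * j ∈ A)

lemma sum_hits {A : Finset ℕ} {N M : ℕ} (hA : A ⊆ Icc 1 N) :
    (N / M + 1) * (M * A.card)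
      ≤ ∑ p ∈ range (2 * N + 1) ×ˢ range (N / M + 1), (hits A M p).card := by
  rw [Finset.sum_product_right]
  have h1 : ∀ v ∈ range (N / M + 1),
      M * A.card ≤ ∑ u ∈ range (2 * N + 1), (hits A M (u, v)).card := by
    intro v hv
    have h2 : ∑ u ∈ range (2 * N + 1), (hits A M (u, v)).card
        = ∑ j ∈ range M, ((range (2 * N + 1)).filter (fun u => u - v * j ∈ A)).card := by
      simp only [hits, Finset.card_filter]
      rw [Finset.sum_comm]
    rw [h2]
    have h3 : ∀ j ∈ range M,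
        A.card ≤ ((range (2 * N + 1)).filter (fun u => u - v * j ∈ A)).card := by
      intro j hj
      apply Finset.card_le_card_of_injOn (fun a => a + v * j)
      · intro a ha
        have ha' : a ∈ A := ha
        have h4 := (Finset.mem_Icc.mp (hA ha')).2
        have h5 : v ≤ N / M := by
          have := Finset.mem_range.mp hv
          omega
        have h6 : j ≤ M := (Finset.mem_range.mp hj).le
        have h7 : v * j ≤ N := (Nat.mul_le_mul h5 h6).trans (Nat.div_mul_le_self N M)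
        simp only [coe_filter, mem_range, Set.mem_ofPred_eq, add_tsub_cancel_right]
        exact ⟨by omega, ha'⟩
      · intro a _ b _ h
        simpa using h
    have := Finset.card_nsmul_le_sum (range M) _ _ h3
    simpa using this
  have := Finset.card_nsmul_le_sum (range (N / M + 1)) _ _ h1
  simpa using this

lemma many_good {A : Finset ℕ} {N M : ℕ} (hA : A ⊆ Icc 1 N) (hN : 1 ≤ N) (hM : 1 ≤ M) :
    (N / M + 1) * A.card ≤ 2 * ((range (2 * N + 1) ×ˢ range (N / M + 1)).filter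
      (fun p => M * A.card ≤ 6 * N * (hits A M p).card)).card := by
  set W := range (2 * N + 1) ×ˢ range (N / M + 1) with hW
  set G := W.filter (fun p => M * A.card ≤ 6 * N * (hits A M p).card) with hG
  have h1 := sum_hits (M := M) hA
  rw [← hW] at h1
  have h2 : ∑ p ∈ W, 6 * N * (hits A M p).card
      ≤ ∑ p ∈ W, ((if M * A.card ≤ 6 * N * (hits A M p).card then 6 * N * M else 0)
        + M * A.card) := by
    refine Finset.sum_le_sum (fun p _ => ?_)
    split_ifs with h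
    · have : (hits A M p).card ≤ M := by
        have := Finset.card_filter_le (range M) (fun j => p.1 - p.2 * j ∈ A)
        simpa [hits] using this
      have := Nat.mul_le_mul_left (6 * N) this
      omega
    · omega
  rw [Finset.sum_add_distrib, ← Finset.sum_filter, ← hG, Finset.sum_const, Finset.sum_const,
    ← Finset.mul_sum, smul_eq_mul, smul_eq_mul] at h2
  have h3 : W.card ≤ 3 * N * (N / M + 1) := by
    rw [hW, Finset.card_product, Finset.card_range, Finset.card_range]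
    apply Nat.mul_le_mul_right
    omega
  have h4 := Nat.mul_le_mul_left (6 * N) h1
  have h5 := Nat.mul_le_mul_right (M * A.card) h3
  have h6 : 3 * N * M * ((N / M + 1) * A.card) ≤ 3 * N * M * (2 * G.card) := by
    nlinarith
  exact Nat.le_of_mul_le_mul_left h6 (by positivity)

/-- Varnavides averaging followed by pigeonholing on the pattern. -/
lemma exists_pattern {c : ι → ℤ} {A : Finset ℕ} {N M : ℕ} (hA : A ⊆ Icc 1 N) (hN : 1 ≤ N)
    (hM : 1 ≤ M) (hA0 : A.Nonempty)
    (h : ∀ B : Finset ℕ, B ⊆ range M → M * A.card ≤ 6 * N * B.card → ¬ OnlyConst c B) :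
    ∃ t : ι → ℕ, ∑ i, c i * (t i : ℤ) = 0 ∧ (∃ i j, t i ≠ t j) ∧
      N * A.card ≤ 2 * M ^ (Fintype.card ι + 1) *
        ((range (2 * N + 1) ×ˢ range (N / M + 1)).filter
          (fun p => ∀ k, p.1 - p.2 * t k ∈ A)).card := by
  classical
  set W := range (2 * N + 1) ×ˢ range (N / M + 1) with hW
  set G := W.filter (fun p => M * A.card ≤ 6 * N * (hits A M p).card) with hG
  have hGc : (N / M + 1) * A.card ≤ 2 * G.card := many_good hA hN hM
  set Pat : Finset (ι → ℕ) := (Fintype.piFinset (fun _ : ι => range M)).filter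
    (fun t => ∑ i, c i * (t i : ℤ) = 0 ∧ ∃ i j, t i ≠ t j) with hPat
  have hcover : G ⊆ Pat.biUnion (fun t => W.filter (fun p => ∀ k, p.1 - p.2 * t k ∈ A)) := by
    intro p hp
    rw [hG, Finset.mem_filter] at hp
    have h1 := h (hits A M p) (Finset.filter_subset _ _) hp.2
    unfold OnlyConst at h1
    push Not at h1
    obtain ⟨t, ht1, ht2, ht3⟩ := h1
    rw [Finset.mem_biUnion]
    refine ⟨t, ?_, ?_⟩
    · rw [hPat, Finset.mem_filter, Fintype.mem_piFinset]
      exact ⟨fun k => (Finset.mem_filter.mp (ht1 k)).1, ht2, ht3⟩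
    · rw [Finset.mem_filter]
      exact ⟨hp.1, fun k => (Finset.mem_filter.mp (ht1 k)).2⟩
  have hApos : 0 < A.card := hA0.card_pos
  have hGne : G.Nonempty := by
    rw [← Finset.card_pos]
    have : 0 < (N / M + 1) * A.card := by positivity
    omega
  have hPne : Pat.Nonempty := by
    obtain ⟨p, hp⟩ := hGne
    obtain ⟨t, ht, _⟩ := Finset.mem_biUnion.mp (hcover hp)
    exact ⟨t, ht⟩
  obtain ⟨t, ht, hmax⟩ := Finset.exists_max_image Pat
    (fun t => (W.filter (fun p : ℕ × ℕ => ∀ k, p.1 - p.2 * t k ∈ A)).card) hPne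
  have hPc : Pat.card ≤ M ^ Fintype.card ι := by
    refine (Finset.card_filter_le _ _).trans ?_
    rw [Fintype.card_piFinset]
    simp
  have h2 : G.card ≤ Pat.card * (W.filter (fun p => ∀ k, p.1 - p.2 * t k ∈ A)).card :=
    (Finset.card_le_card hcover).trans (Finset.card_biUnion_le_card_mul _ _ _ hmax)
  rw [hPat, Finset.mem_filter] at ht
  refine ⟨t, ht.2.1, ht.2.2, ?_⟩
  have h3 : N ≤ M * (N / M + 1) := (Nat.lt_mul_div_succ N hM).le
  calc N * A.card ≤ M * (N / M + 1) * A.card := Nat.mul_le_mul_right _ h3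
    _ = M * ((N / M + 1) * A.card) := by ring
    _ ≤ M * (2 * G.card) := Nat.mul_le_mul_left _ hGc
    _ ≤ M * (2 * (M ^ Fintype.card ι
          * (W.filter (fun p => ∀ k, p.1 - p.2 * t k ∈ A)).card)) := by
      apply Nat.mul_le_mul_left
      apply Nat.mul_le_mul_left
      exact h2.trans (Nat.mul_le_mul_right _ hPc)
    _ = _ := by ring

lemma many_of_pattern {c : ι → ℤ} (hc : ∀ i, c i ≠ 0) (hs : ∑ i, c i = 0) {A : Finset ℕ}
    {N K V : ℕ} (hA : A ⊆ Icc 1 N) (hK : ∀ i, |c i| ≤ K) (hK1 : 1 ≤ K) (hN : 1 ≤ N)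
    (hV : V ≤ N) (t : ι → ℕ) (ht : ∑ i, c i * (t i : ℤ) = 0) {i j : ι} (hij : t i ≠ t j)
    (lam : ℝ) (hlam0 : 0 ≤ lam)
    (hlam : lam * (10 * K) * (N : ℝ) ^ 2 ≤ ((range (2 * N + 1) ×ˢ range (V + 1)).filter
          (fun p => ∀ k, p.1 - p.2 * t k ∈ A)).card) :
    lam ^ (2 ^ (Fintype.card ι - 1)) * (N : ℝ) ^ (Fintype.card ι) ≤ N * (sol c A).card := by
  set P := (range (2 * N + 1) ×ˢ range (V + 1)).filter
    (fun p => ∀ k, p.1 - p.2 * t k ∈ A) with hP
  have hcast : ∀ p ∈ P, ∀ k, ((p.1 - p.2 * t k : ℕ) : ℤ) = (p.1 : ℤ) - p.2 * t k := by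
    intro p hp k
    have h1 := (Finset.mem_Icc.mp (hA ((Finset.mem_filter.mp hp).2 k))).1
    rw [Nat.cast_sub (by omega)]
    push_cast
    rfl
  have hij' : i ≠ j := fun h => hij (by rw [h])
  refine many_of_family hc hA hK hK1 hN P (fun p k => p.1 - p.2 * t k) ?_ hij' ?_ ?_
    lam hlam0 hlam
  · intro p hp
    rw [mem_sol]
    refine ⟨(Finset.mem_filter.mp hp).2, ?_⟩
    simp only [hcast p hp]
    have : ∑ k, c k * ((p.1 : ℤ) - p.2 * t k)
        = p.1 * ∑ k, c k - p.2 * ∑ k, c k * (t k : ℤ) := by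
      rw [Finset.mul_sum, Finset.mul_sum, ← Finset.sum_sub_distrib]
      refine Finset.sum_congr rfl (fun k _ => by ring)
    rw [this, hs, ht]
    simp
  · intro p hp q hq h1 h2
    have h3 : (p.1 : ℤ) - p.2 * t i = (q.1 : ℤ) - q.2 * t i := by
      rw [← hcast p hp, ← hcast q hq]; exact_mod_cast h1
    have h4 : (p.1 : ℤ) - p.2 * t j = (q.1 : ℤ) - q.2 * t j := by
      rw [← hcast p hp, ← hcast q hq]; exact_mod_cast h2
    have h5 : ((p.2 : ℤ) - q.2) * ((t i : ℤ) - t j) = 0 := by linarith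
    have h6 : ((t i : ℤ) - t j) ≠ 0 := by
      rw [sub_ne_zero]; exact_mod_cast hij
    have h7 : (p.2 : ℤ) = q.2 := sub_eq_zero.mp ((mul_eq_zero.mp h5).resolve_right h6)
    have h8 : (p.1 : ℤ) = q.1 := by rw [h7] at h3; linarith
    exact Prod.ext (by exact_mod_cast h8) (by exact_mod_cast h7)
  · intro k a
    have : (P.filter (fun p => p.1 - p.2 * t k = a)).card ≤ (range (V + 1)).card := by
      apply Finset.card_le_card_of_injOn (fun p => p.2)
      · intro p hp
        have h1 := (Finset.mem_filter.mp (Finset.mem_filter.mp hp).1).1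
        exact (Finset.mem_product.mp h1).2
      · intro p hp q hq h
        have hp' := Finset.mem_filter.mp hp
        have hq' := Finset.mem_filter.mp hq
        have h3 : (p.1 : ℤ) - p.2 * t k = (q.1 : ℤ) - q.2 * t k := by
          rw [← hcast p hp'.1, ← hcast q hq'.1, hp'.2, hq'.2]
        have h7 : p.2 = q.2 := h
        have h8 : (p.1 : ℤ) = q.1 := by rw [h7] at h3; linarith
        exact Prod.ext (by exact_mod_cast h8) h7
    rw [Finset.card_range] at this
    omega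

/-- Main theorem in the invariant case. -/
theorem abundant_of_not_avoid {c : ι → ℤ} (hc : ∀ i, c i ≠ 0) (hι : ∃ i j : ι, i ≠ j)
    (h : ¬ Avoid c) :
    ∃ (γ : ℝ) (C : ℕ), 0 < γ ∧ 0 < C ∧ ∀ N : ℕ, 1 ≤ N → ∀ A : Finset ℕ, A ⊆ Icc 1 N →
      γ * ((A.card : ℝ) / N) ^ C * (N : ℝ) ^ (Fintype.card ι) ≤ N * (sol c A).card := by
  have hs : ∑ i, c i = 0 := by
    by_contra hs
    exact h (avoid_of_sum_ne c hs)
  obtain ⟨K, hKdef⟩ : ∃ K : ℕ, K = (∑ i, |c i|).natAbs + 2 := ⟨_, rfl⟩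
  have hK : ∑ i, |c i| < K := by
    rw [hKdef]; push_cast
    have := le_abs_self (∑ i, |c i|)
    linarith
  have hK2 : 2 ≤ K := by omega
  have hK' : ∀ i, |c i| ≤ K := fun i =>
    (Finset.single_le_sum (f := fun i => |c i|) (fun _ _ => abs_nonneg _)
      (Finset.mem_univ i)).trans hK.le
  obtain ⟨D, hD⟩ := exists_exponent hs hι hK hK2 h
  obtain ⟨L, hL⟩ : ∃ L : ℕ, L = Fintype.card ι := ⟨_, rfl⟩
  rw [← hL]
  obtain ⟨R, hR⟩ : ∃ R : ℝ, R = 2 * K ^ D * 6 ^ (D + 1) := ⟨_, rfl⟩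
  have hKr : (2 : ℝ) ≤ K := by exact_mod_cast hK2
  have hR0 : 0 < R := by rw [hR]; positivity
  refine ⟨(1 / (20 * K * R ^ (L + 1))) ^ (2 ^ (L - 1)), (1 + (D + 1) * (L + 1)) * 2 ^ (L - 1),
    by positivity, by positivity, fun N hN A hA => ?_⟩
  have hNr : (1 : ℝ) ≤ N := by exact_mod_cast hN
  have hN0 : (0 : ℝ) < N := by linarith
  rcases A.eq_empty_or_nonempty with hA0 | hA0
  · rw [hA0, Finset.card_empty, Nat.cast_zero, zero_div, zero_pow (by positivity)]
    simp only [mul_zero, zero_mul]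
    positivity
  obtain ⟨ε, hε⟩ : ∃ ε : ℝ, ε = (A.card : ℝ) / N := ⟨_, rfl⟩
  rw [← hε]
  have hApos : (0 : ℝ) < A.card := by exact_mod_cast hA0.card_pos
  have hε0 : 0 < ε := by rw [hε]; positivity
  have hAc : A.card ≤ N := by
    have := Finset.card_le_card hA
    simpa using this
  have hε1 : ε ≤ 1 := by
    rw [hε, div_le_one hN0]; exact_mod_cast hAc
  have hAε : (A.card : ℝ) = ε * N := by rw [hε]; field_simp
  obtain ⟨X, hX⟩ : ∃ X : ℝ, X = K ^ D * (6 / ε) ^ (D + 1) := ⟨_, rfl⟩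
  have hX1 : 1 ≤ X := by
    have h1 : (1 : ℝ) ≤ K ^ D := one_le_pow₀ (by linarith)
    have h2 : (1 : ℝ) ≤ (6 / ε) ^ (D + 1) := by
      apply one_le_pow₀
      rw [le_div_iff₀ hε0]; linarith
    nlinarith
  obtain ⟨M, hM1, hMX, hMX'⟩ : ∃ M : ℕ, 1 ≤ M ∧ X ≤ M ∧ (M : ℝ) ≤ 2 * X := by
    refine ⟨⌈X⌉₊, Nat.ceil_pos.mpr (by linarith), Nat.le_ceil X, ?_⟩
    have := Nat.ceil_lt_add_one (by linarith : (0 : ℝ) ≤ X)
    linarith
  have hM0 : (0 : ℝ) < M := by linarith
  obtain ⟨t, ht, ⟨i, j, hij⟩, hcount⟩ := exists_pattern (c := c) hA hN hM1 hA0 (by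
    intro B hB hBc
    apply hD M hM1 B hB
    have h1 : (M : ℝ) * A.card ≤ 6 * N * B.card := by exact_mod_cast hBc
    have h2 : (M : ℝ) * (ε / 6) ≤ B.card := by
      rw [hAε] at h1
      apply le_of_mul_le_mul_left _ hN0
      nlinarith
    have h3 := pow_le_pow_left₀ (by positivity) h2 (D + 1)
    have h4 : ((K : ℝ) * M) ^ D ≤ ((M : ℝ) * (ε / 6)) ^ (D + 1) := by
      have h5 : (K : ℝ) ^ D = X * (ε / 6) ^ (D + 1) := by
        rw [hX, mul_assoc, ← mul_pow]
        have : 6 / ε * (ε / 6) = 1 := by field_simp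
        rw [this, one_pow, mul_one]
      rw [mul_pow, mul_pow, h5, pow_succ (M : ℝ) D]
      have h6 : (0 : ℝ) ≤ (ε / 6) ^ (D + 1) * M ^ D := by positivity
      nlinarith
    exact_mod_cast h4.trans h3)
  have hV : N / M ≤ N := Nat.div_le_self _ _
  rw [← hL] at hcount
  obtain ⟨lam, hlam⟩ : ∃ lam : ℝ, lam = ε ^ (1 + (D + 1) * (L + 1)) / (20 * K * R ^ (L + 1)) :=
    ⟨_, rfl⟩
  have key := many_of_pattern hc hs hA hK' (by omega) hN hV t ht hij lam
    (by rw [hlam]; positivity) (by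
    have h1 : (N : ℝ) * A.card ≤ 2 * M ^ (L + 1) *
        ((range (2 * N + 1) ×ˢ range (N / M + 1)).filter
          (fun p => ∀ k, p.1 - p.2 * t k ∈ A)).card := by exact_mod_cast hcount
    have h2 : (0 : ℝ) < 2 * M ^ (L + 1) := by positivity
    apply le_of_mul_le_mul_left _ h2
    refine le_trans ?_ h1
    have h3 : (M : ℝ) * ε ^ (D + 1) ≤ R := by
      have : 2 * X * ε ^ (D + 1) = R := by
        rw [hX, hR, div_pow]; field_simp
      rw [← this]
      exact mul_le_mul_of_nonneg_right hMX' (by positivity)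
    have h4 := pow_le_pow_left₀ (by positivity) h3 (L + 1)
    have h5 : 2 * (M : ℝ) ^ (L + 1) * (lam * (10 * K) * (N : ℝ) ^ 2)
        = ((M : ℝ) * ε ^ (D + 1)) ^ (L + 1) / R ^ (L + 1) * (N * (ε * N)) := by
      rw [hlam, mul_pow, ← pow_mul, pow_add]
      field_simp
      ring
    rw [h5, hAε]
    have h6 : ((M : ℝ) * ε ^ (D + 1)) ^ (L + 1) / R ^ (L + 1) ≤ 1 := by
      rw [div_le_one (by positivity)]; exact h4
    have h7 : (0 : ℝ) ≤ N * (ε * N) := by positivity
    nlinarith)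
  rw [← hL] at key
  refine le_trans (le_of_eq ?_) key
  have e : lam = (1 / (20 * K * R ^ (L + 1))) * ε ^ (1 + (D + 1) * (L + 1)) := by
    rw [hlam]; ring
  rw [e, mul_pow (1 / (20 * K * R ^ (L + 1)) : ℝ), ← pow_mul ε]

end Pool.Agent.MP_7119ff_nt
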